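import Pool.Agent.H856Z.Cau.Defs

namespace Pool.Agent.H856Z.Cau

open Set Complex

/-- unit vector of angle `a` -/
noncomputable def e (a : ℝ) : ℂ := Complex.exp (a * I)

theorem e_add (a b : ℝ) : e (a + b) = e a * e b := by
  simp [e, add_mul, Complex.exp_add]

theorem e_zero : e 0 = 1 := by simp [e]

theorem e_mul_neg (a : ℝ) : e a * e (-a) = 1 := by rw [← e_add]; simp [e_zero]

theorem e_re (a : ℝ) : (e a).re = Real.cos a := by simp [e, Complex.exp_ofReal_mul_I_re]

theorem e_im (a : ℝ) : (e a).im = Real.sin a := by simp [e, Complex.exp_ofReal_mul_I_im]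

theorem norm_e (a : ℝ) : ‖e a‖ = 1 := by simp [e, Complex.norm_exp_ofReal_mul_I]

theorem e_ne (a : ℝ) : e a ≠ 0 := Complex.exp_ne_zero _

theorem e_two_pi : e (2 * Real.pi) = 1 := by
  simp [e, Complex.exp_two_pi_mul_I]

theorem continuous_e : Continuous e := by unfold e; fun_prop

theorem hasDerivAt_e {f : ℝ → ℝ} {f' x : ℝ} (h : HasDerivAt f f' x) :
    HasDerivAt (fun t => e (f t)) (e (f x) * (f' * I)) x := by
  unfold e
  exact (h.ofReal_comp.mul_const I).cexp

/-- signed height of `w` over the line through `P` with direction angle `a` -/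
noncomputable def ht (P : ℂ) (a : ℝ) (w : ℂ) : ℝ := ((w - P) * e (-a)).im

theorem ht_on (P : ℂ) (a b r : ℝ) : ht P a (P + r • e b) = r * Real.sin (b - a) := by
  unfold ht
  have : (P + r • e b - P) * e (-a) = r • e (b - a) := by
    rw [sub_eq_add_neg b a, e_add]; simp [mul_assoc]
  rw [this]; simp [e_im]

theorem ht_shift (P : ℂ) (a r : ℝ) (w : ℂ) : ht (P + r • e a) a w = ht P a w := by
  unfold ht
  have : (w - (P + r • e a)) * e (-a) = (w - P) * e (-a) - r • (e a * e (-a)) := by
    simp only [Complex.real_smul]; ring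
  rw [this, e_mul_neg]; simp

theorem eq_of_ht_zero {P w : ℂ} {a : ℝ} (h : ht P a w = 0) : ∃ r : ℝ, w = P + r • e a := by
  refine ⟨((w - P) * e (-a)).re, ?_⟩
  have h1 : (w - P) * e (-a) = (((w - P) * e (-a)).re : ℂ) := by
    apply Complex.ext <;> simp
    simpa [ht] using h
  have h2 : w - P = ((w - P) * e (-a)) * e a := by
    rw [mul_assoc, mul_comm (e (-a)), e_mul_neg, mul_one]
  rw [Complex.real_smul, ← h1, ← h2]; ring

theorem ht_sub (P Q : ℂ) (a : ℝ) (w : ℂ) : ht P a w = ht P a Q + ht Q a w := by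
  unfold ht
  rw [← Complex.add_im]; congr 1; ring

/-- Data of a closed curve with strictly increasing tangent angle of total variation `2π`. -/
structure Oval (z : ℝ → ℂ) (ρ φ : ℝ → ℝ) (l : ℝ) : Prop where
  lpos : 0 < l
  der : ∀ t, HasDerivAt z (ρ t • e (φ t)) t
  ρcont : Continuous ρ
  ρpos : ∀ t, 0 < ρ t
  φcont : Continuous φ
  φmono : StrictMono φ
  φper : ∀ t, φ (t + l) = φ t + 2 * Real.pi
  zper : Function.Periodic z l

/-- the convex body bounded by the curve -/
def body (z : ℝ → ℂ) (φ : ℝ → ℝ) : Set ℂ := {w | ∀ t, 0 ≤ ht (z t) (φ t) w}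

namespace Oval

variable {z : ℝ → ℂ} {ρ φ : ℝ → ℝ} {l : ℝ} (h : Oval z ρ φ l)
include h

theorem zcont : Continuous z := continuous_iff_continuousAt.2 fun t => (h.der t).continuousAt

theorem ht_der (s t : ℝ) :
    HasDerivAt (fun t => ht (z s) (φ s) (z t)) (ρ t * Real.sin (φ t - φ s)) t := by
  unfold ht
  have h1 := ((h.der t).sub_const (z s)).mul_const (e (-φ s))
  have h2 := Complex.imCLM.hasFDerivAt.comp_hasDerivAt t h1
  have : ρ t • e (φ t) * e (-φ s) = ρ t • e (φ t - φ s) := by
    rw [sub_eq_add_neg (φ t), e_add]; simp [mul_assoc]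
  have h3 : imCLM (ρ t • e (φ t) * e (-φ s)) = ρ t * Real.sin (φ t - φ s) := by
    rw [this]; simp [e_im]
  rw [h3] at h2
  exact h2

theorem e_per (t : ℝ) : e (φ (t + l)) = e (φ t) := by rw [h.φper, e_add, e_two_pi, mul_one]

theorem ht_per (w : ℂ) : Function.Periodic (fun t => ht (z t) (φ t) w) l := by
  intro t
  simp only [ht]
  rw [h.zper t, h.φper, neg_add, e_add]
  have : e (-(2 * Real.pi)) = 1 := by
    have := e_mul_neg (2 * Real.pi); rwa [e_two_pi, one_mul] at this
  rw [this, mul_one]

theorem pos_of_between {s t : ℝ} (h1 : s < t) (h2 : t < s + l) : 0 < ht (z s) (φ s) (z t) := by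
  obtain ⟨m, hm, hm'⟩ : ∃ m ∈ Icc s (s + l), φ m = φ s + Real.pi := by
    apply intermediate_value_Icc (by linarith [h.lpos]) h.φcont.continuousOn
    rw [h.φper]; constructor <;> linarith [Real.pi_pos]
  have hd := h.ht_der s
  have hc : Continuous (fun t => ht (z s) (φ s) (z t)) :=
    continuous_iff_continuousAt.2 fun t => (hd t).continuousAt
  have h0 : ht (z s) (φ s) (z s) = 0 := by simp [ht]
  rcases le_or_gt t m with htm | htm
  · have : StrictMonoOn (fun t => ht (z s) (φ s) (z t)) (Icc s m) := by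
      apply strictMonoOn_of_deriv_pos (convex_Icc _ _) hc.continuousOn
      intro x hx
      rw [interior_Icc] at hx
      rw [(hd x).deriv]
      apply mul_pos (h.ρpos x)
      apply Real.sin_pos_of_pos_of_lt_pi
      · linarith [h.φmono hx.1]
      · linarith [h.φmono hx.2]
    have := this ⟨le_refl s, hm.1⟩ ⟨h1.le, htm⟩ h1
    simpa [h0] using this
  · have : StrictAntiOn (fun t => ht (z s) (φ s) (z t)) (Icc m (s + l)) := by
      apply strictAntiOn_of_deriv_neg (convex_Icc _ _) hc.continuousOn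
      intro x hx
      rw [interior_Icc] at hx
      rw [(hd x).deriv]
      apply mul_neg_of_pos_of_neg (h.ρpos x)
      have e1 : Real.sin (φ x - φ s) = Real.sin (φ x - φ s - 2 * Real.pi) :=
        (Real.sin_sub_two_pi _).symm
      rw [e1]
      apply Real.sin_neg_of_neg_of_neg_pi_lt
      · have := h.φmono hx.2; rw [h.φper] at this; linarith
      · linarith [h.φmono hx.1]
    have := this ⟨htm.le, h2.le⟩ ⟨hm.2, le_refl _⟩ h2
    simp only at this
    rwa [h.zper s, h0] at this

theorem eq_or_pos (s t : ℝ) : (∃ n : ℤ, t = s + n * l) ∨ 0 < ht (z s) (φ s) (z t) := by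
  have hm := toIcoMod_mem_Ico h.lpos s t
  have he := toIcoMod_add_toIcoDiv_zsmul h.lpos s t
  set t' := toIcoMod h.lpos s t
  rcases eq_or_lt_of_le hm.1 with h1 | h1
  · left; exact ⟨toIcoDiv h.lpos s t, by rw [zsmul_eq_mul] at he; linarith⟩
  · right
    have : z t = z t' := by rw [← he]; exact (h.zper.zsmul _) t'
    rw [this]; exact h.pos_of_between h1 hm.2

theorem z_shift (s : ℝ) (n : ℤ) : z (s + n * l) = z s := (h.zper.int_mul n) s

theorem e_shift (s : ℝ) (n : ℤ) : e (φ (s + n * l)) = e (φ s) :=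
  ((show Function.Periodic (fun t => e (φ t)) l from h.e_per).int_mul n) s

theorem mem_body (t : ℝ) : z t ∈ body z φ := by
  intro s
  rcases h.eq_or_pos s t with ⟨n, rfl⟩ | h1
  · rw [h.z_shift]; simp [ht]
  · exact h1.le

theorem injOn : InjOn z (Ico 0 l) := by
  have key : ∀ s t, s ∈ Ico 0 l → t ∈ Ico 0 l → s < t → z s ≠ z t := by
    intro s t hs ht' hst e1
    have := h.pos_of_between hst (by linarith [hs.1, ht'.2])
    rw [← e1] at this; simp [ht] at this
  intro s hs t ht' e1
  rcases lt_trichotomy s t with h1 | h1 | h1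
  · exact absurd e1 (key s t hs ht' h1)
  · exact h1
  · exact absurd e1.symm (key t s ht' hs h1)

/-- a point of the body on a supporting line is the point of contact -/
theorem eq_of_support {w : ℂ} (hw : w ∈ body z φ) {s : ℝ} (h0 : ht (z s) (φ s) w = 0) :
    w = z s := by
  obtain ⟨r, rfl⟩ := eq_of_ht_zero h0
  suffices r = 0 by simp [this]
  by_contra hr
  -- a small neighbourhood of `s`
  have hev : ∀ᶠ t in nhds s, |φ t - φ s| < 1 ∧ ρ t < ρ s + 1 := by
    refine (h.φcont.continuousAt.eventually (p := fun y => |y - φ s| < 1) ?_).and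
      (h.ρcont.continuousAt.eventually (p := fun y => y < ρ s + 1) ?_)
    · exact (Metric.ball_mem_nhds (φ s) one_pos)
    · exact Iio_mem_nhds (by linarith)
  obtain ⟨δ, hδ, hδ'⟩ := Metric.eventually_nhds_iff.1 hev
  have hρ := h.ρpos s
  have hra : 0 < |r| := abs_pos.2 hr
  set η := min (δ / 2) (|r| / (2 * (ρ s + 1))) with hη
  have hη0 : 0 < η := lt_min (by linarith) (by positivity)
  have hη1 : η < δ := lt_of_le_of_lt (min_le_left _ _) (by linarith)
  have hη2 : η * (ρ s + 1) < |r| := by
    have : η ≤ |r| / (2 * (ρ s + 1)) := min_le_right _ _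
    rw [le_div_iff₀ (by positivity)] at this
    nlinarith
  have hpi := Real.pi_gt_three
  have sinmono : ∀ a b : ℝ, 0 ≤ a → a ≤ b → b < 1 → Real.sin a ≤ Real.sin b := fun a b h1 h2 h3 =>
    Real.sin_le_sin_of_le_of_le_pi_div_two (by linarith) (by linarith) h2
  rcases lt_or_gt_of_ne hr with hneg | hpos
  · -- r < 0 : look at t = s - η
    set t := s - η
    have hts : t < s := by simp only [t]; linarith
    have hb := hw t
    rw [ht_sub _ (z s), ht_on] at hb
    obtain ⟨ξ, hξ, hξ'⟩ := exists_hasDerivAt_eq_slope (fun x => ht (z t) (φ t) (z x))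
      (fun x => ρ x * Real.sin (φ x - φ t)) hts
      (continuous_iff_continuousAt.2 fun x => (h.ht_der t x).continuousAt).continuousOn
      (fun x _ => h.ht_der t x)
    have h1 := hδ' (y := t) (by rw [Real.dist_eq]; simp only [t]; rw [abs_lt]; constructor <;> linarith)
    have h2 := hδ' (y := ξ) (by
      rw [Real.dist_eq, abs_lt]; have := hξ.1; have := hξ.2; simp only [t] at *
      constructor <;> linarith)
    have hst : s - t = η := by simp only [t]; ring
    have h3 : ht (z t) (φ t) (z t) = 0 := by simp [ht]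
    rw [h3, sub_zero, hst, eq_div_iff hη0.ne'] at hξ'
    have m1 := h.φmono hξ.1
    have m2 := h.φmono hξ.2
    have m3 : φ s - φ t < 1 := by have := (abs_lt.1 h1.1).1; linarith
    have s1 := sinmono (φ ξ - φ t) (φ s - φ t) (by linarith) (by linarith) m3
    have s2 : 0 < Real.sin (φ s - φ t) := Real.sin_pos_of_pos_of_lt_pi (by linarith) (by linarith)
    have s3 : 0 ≤ Real.sin (φ ξ - φ t) := Real.sin_nonneg_of_nonneg_of_le_pi (by linarith) (by linarith)
    rw [← hξ'] at hb
    rw [abs_of_neg hneg] at hη2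
    have s4 : ρ ξ * Real.sin (φ ξ - φ t) ≤ (ρ s + 1) * Real.sin (φ s - φ t) :=
      mul_le_mul h2.2.le s1 s3 (by linarith)
    nlinarith
  · set t := s + η
    have hts : s < t := by simp only [t]; linarith
    have hb := hw t
    rw [ht_sub _ (z s), ht_on] at hb
    obtain ⟨ξ, hξ, hξ'⟩ := exists_hasDerivAt_eq_slope (fun x => ht (z t) (φ t) (z x))
      (fun x => ρ x * Real.sin (φ x - φ t)) hts
      (continuous_iff_continuousAt.2 fun x => (h.ht_der t x).continuousAt).continuousOn
      (fun x _ => h.ht_der t x)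
    have h1 := hδ' (y := t) (by rw [Real.dist_eq]; simp only [t]; rw [abs_lt]; constructor <;> linarith)
    have h2 := hδ' (y := ξ) (by
      rw [Real.dist_eq, abs_lt]; have := hξ.1; have := hξ.2; simp only [t] at *
      constructor <;> linarith)
    have hst : t - s = η := by simp only [t]; ring
    have h3 : ht (z t) (φ t) (z t) = 0 := by simp [ht]
    rw [h3, zero_sub, hst, eq_div_iff hη0.ne'] at hξ'
    have m1 := h.φmono hξ.1
    have m2 := h.φmono hξ.2
    have m3 : φ t - φ s < 1 := (abs_lt.1 h1.1).2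
    have s1 := sinmono (φ t - φ ξ) (φ t - φ s) (by linarith) (by linarith) m3
    have s2 : 0 < Real.sin (φ t - φ s) := Real.sin_pos_of_pos_of_lt_pi (by linarith) (by linarith)
    have s3 : 0 ≤ Real.sin (φ t - φ ξ) := Real.sin_nonneg_of_nonneg_of_le_pi (by linarith) (by linarith)
    have n1 : Real.sin (φ ξ - φ t) = -Real.sin (φ t - φ ξ) := by rw [← Real.sin_neg]; ring_nf
    have n2 : Real.sin (φ s - φ t) = -Real.sin (φ t - φ s) := by rw [← Real.sin_neg]; ring_nf
    rw [n1] at hξ'
    rw [n2] at hb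
    rw [abs_of_pos hpos] at hη2
    have s4 : ρ ξ * Real.sin (φ t - φ ξ) ≤ (ρ s + 1) * Real.sin (φ t - φ s) :=
      mul_le_mul h2.2.le s1 s3 (by linarith)
    nlinarith

omit h in
theorem ht_cont (P : ℂ) (a : ℝ) : Continuous (ht P a) := by unfold ht; fun_prop

omit h in
theorem isClosed_body : IsClosed (body z φ) := by
  have : body z φ = ⋂ t, {w | 0 ≤ ht (z t) (φ t) w} := by ext w; simp [body]
  rw [this]
  exact isClosed_iInter fun t => isClosed_le continuous_const (ht_cont _ _)

omit h in
theorem ht_comb (P : ℂ) (a : ℝ) (x y : ℂ) {p q : ℝ} (hpq : p + q = 1) :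
    ht P a (p • x + q • y) = p * ht P a x + q * ht P a y := by
  unfold ht
  have : (p • x + q • y - P) * e (-a) = p • ((x - P) * e (-a)) + q • ((y - P) * e (-a)) := by
    have hq : (q : ℂ) = 1 - p := by rw [show q = 1 - p by linarith]; push_cast; ring
    simp only [Complex.real_smul, hq]; ring
  rw [this]; simp

omit h in
theorem convex_body : Convex ℝ (body z φ) := by
  intro x hx y hy p q hp hq hpq t
  rw [ht_comb _ _ _ _ hpq]
  exact add_nonneg (mul_nonneg hp (hx t)) (mul_nonneg hq (hy t))

theorem mem_interior {w : ℂ} (hw : ∀ t, 0 < ht (z t) (φ t) w) : w ∈ interior (body z φ) := by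
  have hc : Continuous (fun t => ht (z t) (φ t) w) := by
    unfold ht
    have := h.zcont; have := h.φcont; have := continuous_e
    fun_prop
  obtain ⟨t0, -, ht0⟩ := isCompact_Icc.exists_isMinOn (nonempty_Icc.2 h.lpos.le)
    (hc.continuousOn (s := Icc 0 l))
  have hm : ∀ t, ht (z t0) (φ t0) w ≤ ht (z t) (φ t) w := by
    intro t
    obtain ⟨y, hy, hy'⟩ := (h.ht_per w).exists_mem_Ico₀ h.lpos t
    rw [hy']; exact ht0 ⟨hy.1, hy.2.le⟩
  rw [mem_interior_iff_mem_nhds]
  filter_upwards [Metric.ball_mem_nhds w (hw t0)] with w' hw' t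
  rw [ht_sub _ w]
  have : |ht w (φ t) w'| ≤ ‖w' - w‖ := by
    unfold ht
    refine (Complex.abs_im_le_norm _).trans ?_
    rw [norm_mul, norm_e, mul_one]
  rw [Metric.mem_ball, dist_eq_norm] at hw'
  linarith [hm t, (abs_le.1 this).1]

omit h in
theorem not_interior (s : ℝ) : z s ∉ interior (body z φ) := by
  intro hi
  rw [mem_interior_iff_mem_nhds, Metric.mem_nhds_iff] at hi
  obtain ⟨ε, hε, hb⟩ := hi
  have : z s + (ε / 2) • e (φ s - Real.pi / 2) ∈ body z φ := by
    apply hb
    rw [Metric.mem_ball, dist_eq_norm, add_sub_cancel_left, norm_smul, norm_e, mul_one,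
      Real.norm_eq_abs, abs_of_pos (by linarith)]
    linarith
  have h1 := this s
  rw [ht_on, show φ s - Real.pi / 2 - φ s = -(Real.pi / 2) by ring, Real.sin_neg,
    Real.sin_pi_div_two] at h1
  linarith

theorem frontier_body : frontier (body z φ) = range z := by
  ext w
  rw [frontier, isClosed_body.closure_eq]
  constructor
  · rintro ⟨h1, h2⟩
    by_contra h3
    apply h2
    apply h.mem_interior
    intro t
    refine lt_of_le_of_ne (h1 t) fun h4 => h3 ⟨t, (h.eq_of_support h1 h4.symm).symm⟩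
  · rintro ⟨s, rfl⟩
    exact ⟨h.mem_body s, not_interior s⟩

theorem strictConvex_body : StrictConvex ℝ (body z φ) := by
  intro x hx y hy hxy p q hp hq hpq
  apply h.mem_interior
  intro t
  rw [ht_comb _ _ _ _ hpq]
  rcases eq_or_lt_of_le (hx t) with h1 | h1
  · rcases eq_or_lt_of_le (hy t) with h2 | h2
    · exact absurd ((h.eq_of_support hx h1.symm).trans (h.eq_of_support hy h2.symm).symm) hxy
    · rw [← h1]; simpa using mul_pos hq h2
  · exact add_pos_of_pos_of_nonneg (mul_pos hp h1) (mul_nonneg hq.le (hy t))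

theorem isBounded_body : Bornology.IsBounded (body z φ) := by
  obtain ⟨C, hC⟩ := (isCompact_Icc.image h.zcont : IsCompact (z '' Icc 0 l)).isBounded.exists_norm_le
  rw [isBounded_iff_forall_norm_le]
  refine ⟨C, fun w hw => ?_⟩
  -- choose the direction
  set a := Complex.arg w + Real.pi / 2
  have hm := toIcoMod_mem_Ico Real.two_pi_pos (φ 0) a
  have he := toIcoMod_add_toIcoDiv_zsmul Real.two_pi_pos (φ 0) a
  set a' := toIcoMod Real.two_pi_pos (φ 0) a
  obtain ⟨t, ht1, ht2⟩ : ∃ t ∈ Icc 0 l, φ t = a' := by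
    apply intermediate_value_Icc h.lpos.le h.φcont.continuousOn
    have := h.φper 0
    rw [zero_add] at this
    rw [this]; exact ⟨hm.1, hm.2.le⟩
  have h1 := hw t
  rw [ht_sub _ 0] at h1
  have h2 : ht 0 (φ t) w = -‖w‖ := by
    have hw' : w = 0 + ‖w‖ • e (Complex.arg w) := by
      rw [zero_add, Complex.real_smul, e]; exact (Complex.norm_mul_exp_arg_mul_I w).symm
    conv_lhs => rw [hw']
    rw [ht_on, ht2]
    have : Complex.arg w - a' = -(Real.pi / 2) + (toIcoDiv Real.two_pi_pos (φ 0) a) * (2 * Real.pi) := by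
      rw [zsmul_eq_mul] at he; simp only [a] at he ⊢; linarith
    rw [this, Real.sin_add_int_mul_two_pi, Real.sin_neg, Real.sin_pi_div_two]; ring
  have h3 : |ht (z t) (φ t) 0| ≤ ‖z t‖ := by
    unfold ht
    refine (Complex.abs_im_le_norm _).trans ?_
    rw [norm_mul, norm_e, mul_one]; simp
  have h4 := hC (z t) ⟨t, ht1, rfl⟩
  linarith [(abs_le.1 h3).2]

theorem isCompact_body : IsCompact (body z φ) :=
  Metric.isCompact_of_isClosed_isBounded isClosed_body h.isBounded_body

theorem interior_nonempty : (interior (body z φ)).Nonempty := by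
  have hne : z 0 ≠ z (l / 2) := by
    intro e1
    have := h.pos_of_between (s := 0) (t := l / 2) (by linarith [h.lpos]) (by linarith [h.lpos])
    rw [← e1] at this; simp [ht] at this
  exact ⟨_, h.strictConvex_body (h.mem_body 0) (h.mem_body (l / 2)) hne (a := 1 / 2) (b := 1 / 2)
    (by norm_num) (by norm_num) (by norm_num)⟩

theorem deriv_eq (t : ℝ) : deriv z t = ρ t • e (φ t) := (h.der t).deriv

theorem contDiff_one : ContDiff ℝ 1 z := by
  rw [contDiff_one_iff_deriv]
  refine ⟨fun t => (h.der t).differentiableAt, ?_⟩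
  have : deriv z = fun t => ρ t • e (φ t) := funext h.deriv_eq
  rw [this]
  have := h.ρcont; have := h.φcont; have := continuous_e
  fun_prop

theorem c1Boundary : IsC1Boundary (body z φ) z l :=
  ⟨h.lpos, h.contDiff_one, h.zper, h.injOn,
    fun t => by rw [h.deriv_eq]; exact smul_ne_zero (h.ρpos t).ne' (e_ne _), h.frontier_body.symm⟩

theorem closure_interior : closure (interior (body z φ)) = body z φ := by
  rw [convex_body.closure_interior_eq_closure_of_nonempty_interior h.interior_nonempty,
    isClosed_body.closure_eq]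

theorem isTable : IsTable (interior (body z φ)) z l := by
  refine ⟨isOpen_interior, h.interior_nonempty, h.isBounded_body.subset interior_subset,
    convex_body.interior, ?_, ?_⟩
  · rw [h.closure_interior]; exact h.strictConvex_body
  · obtain ⟨h1, h2, h3, h4, h5, h6⟩ := h.c1Boundary
    refine ⟨h1, h2, h3, h4, h5, ?_⟩
    rw [h6, frontier, frontier, h.closure_interior, interior_interior, isClosed_body.closure_eq]

end Oval

end Pool.Agent.H856Z.Cau
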