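import Mathlib

/-!
Convex billiard tables and convex caustics in the Euclidean plane, which is modelled by `ℂ`.
-/

namespace Pool.Agent.H856Z.Cau

open Set

/-- The straight line through the point `P` with direction `d`. -/
def line (P d : ℂ) : Set ℂ := {w | ∃ r : ℝ, w = P + r • d}

/-- The mirror image of the vector `d` in the direction `T`: the component of `d` along `T` is kept
and the component orthogonal to `T` changes sign (specular reflection at a boundary point with
tangent vector `T`). -/
noncomputable def mirror (T d : ℂ) : ℂ := (2 * (inner ℝ d T) / ‖T‖ ^ 2) • T - d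

/-- `z` is a regular `C¹` parametrisation, with period `l`, of the boundary of `S` as a simple closed
curve. -/
def IsC1Boundary (S : Set ℂ) (z : ℝ → ℂ) (l : ℝ) : Prop :=
  0 < l ∧ ContDiff ℝ 1 z ∧ Function.Periodic z l ∧ InjOn z (Ico 0 l) ∧ (∀ t, deriv z t ≠ 0) ∧
    range z = frontier S

/-- `Ω` is a bounded strictly convex domain whose boundary, the billiard table, is the regular `C¹`
closed curve `z`. -/
def IsTable (Ω : Set ℂ) (z : ℝ → ℂ) (l : ℝ) : Prop :=
  IsOpen Ω ∧ Ω.Nonempty ∧ Bornology.IsBounded Ω ∧ Convex ℝ Ω ∧ StrictConvex ℝ (closure Ω) ∧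
    IsC1Boundary Ω z l

/-- `γ` is the parametrisation by arc length, of total length `m`, of the boundary of the compact
strictly convex body `K`, and it is of class `C²`. -/
def IsConvexCurve (K : Set ℂ) (γ : ℝ → ℂ) (m : ℝ) : Prop :=
  IsCompact K ∧ (interior K).Nonempty ∧ StrictConvex ℝ K ∧ IsC1Boundary K γ m ∧ ContDiff ℝ 2 γ ∧
    ∀ s, ‖deriv γ s‖ = 1

/-- The set `A` is a tangent line of the curve `γ`. -/
def IsTangentLine (γ : ℝ → ℂ) (A : Set ℂ) : Prop := ∃ s, A = line (γ s) (deriv γ s)

/-- `γ` (bounding `K`) is a convex caustic of the table `z` (bounding `Ω`): it lies inside `Ω`, and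
whenever a line through a boundary point `z t` is tangent to `γ`, so is the reflected line. -/
def IsCaustic (Ω : Set ℂ) (z : ℝ → ℂ) (K : Set ℂ) (γ : ℝ → ℂ) : Prop :=
  K ⊆ Ω ∧ ∀ (t : ℝ) (d : ℂ), d ≠ 0 → IsTangentLine γ (line (z t) d) →
    IsTangentLine γ (line (z t) (mirror (deriv z t) d))

/-- For every point `P = z t` of the table, the tangent lines of `γ` through `P` touch `γ` exactly at
two points `P₋ = γ s` and `P₊ = γ (s + c)`, where `P` lies ahead of `P₋` and behind `P₊` in the
direction of `γ`; so, `γ` being parametrised by arc length, the arc from `P₋` to `P₊` has length `c`. -/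
def ConstantArc (z γ : ℝ → ℂ) (c : ℝ) : Prop :=
  ∀ t : ℝ, ∃ s u v : ℝ, 0 < u ∧ 0 < v ∧ z t = γ s + u • deriv γ s ∧
    z t = γ (s + c) - v • deriv γ (s + c) ∧
    ∀ s' : ℝ, z t ∈ line (γ s') (deriv γ s') → γ s' = γ s ∨ γ s' = γ (s + c)

end Pool.Agent.H856Z.Cau
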