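import Pool.Agent.H856Z.Cau.Nl

namespace Pool.Agent.H856Z.Cau

open Set Real MeasureTheory BoundedContinuousFunction

theorem sup_trick {f : ℝ → ℝ} {B a : ℝ} (hB : ∀ t, |f t| ≤ B)
    (h : ∀ d, (∀ t, |f t| ≤ d) → ∀ t, |f t| ≤ a + d / 2) (t : ℝ) : |f t| ≤ 2 * a := by
  have hb : BddAbove (range fun t => |f t|) := ⟨B, by rintro _ ⟨t, rfl⟩; exact hB t⟩
  have h1 : ∀ t, |f t| ≤ ⨆ t, |f t| := fun t => le_ciSup hb t
  have h2 : (⨆ t, |f t|) ≤ a + (⨆ t, |f t|) / 2 := ciSup_le (h _ h1)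
  linarith [h1 t]

theorem exists_fix {r : ℝ} (hr : 0 < r) (Φ : (ℝ → ℝ) → ℝ → ℝ)
    (hmap : ∀ κ, Ball r κ → Ball r (Φ κ))
    (hlip : ∀ κ κ' d, Ball r κ → Ball r κ' → (∀ t, |κ t - κ' t| ≤ d) →
      ∀ t, |Φ κ t - Φ κ' t| ≤ d / 2) : ∃ κ, Ball r κ ∧ ∀ t, κ t = Φ κ t := by
  set S : Set (ℝ →ᵇ ℝ) := {f | Ball r f} with hS
  have hcl : IsClosed S := by
    have : S = (⋂ t, {f : ℝ →ᵇ ℝ | f (t + 2 * π) = f t}) ∩ (⋂ t, {f : ℝ →ᵇ ℝ | f (-t) = f t}) ∩
        ⋂ t, {f : ℝ →ᵇ ℝ | |f t| ≤ r / 4} := by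
      ext f
      simp only [hS, mem_ofPred_eq, mem_inter_iff, mem_iInter]
      exact ⟨fun h => ⟨⟨h.per, h.even⟩, h.le⟩, fun h => ⟨⟨⟨f.continuous, h.1.1⟩, h.1.2⟩, h.2⟩⟩
    rw [this]
    refine (IsClosed.inter (isClosed_iInter fun t => ?_) (isClosed_iInter fun t => ?_)).inter
      (isClosed_iInter fun t => ?_)
    · exact isClosed_eq (by fun_prop) (by fun_prop)
    · exact isClosed_eq (by fun_prop) (by fun_prop)
    · exact isClosed_le (by fun_prop) (by fun_prop)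
  have : CompleteSpace S := hcl.completeSpace_coe
  have : Nonempty S := ⟨⟨0, ⟨⟨⟨continuous_const, fun _ => rfl⟩, fun _ => rfl⟩, fun _ => by
    simp; linarith⟩⟩⟩
  let g : S → S := fun f => ⟨ofNormedAddCommGroup (Φ f.1) (hmap _ f.2).cont (r / 4) (hmap _ f.2).le,
    hmap _ f.2⟩
  have hg : ContractingWith (1 / 2) g := by
    refine ⟨by norm_num, LipschitzWith.of_dist_le_mul fun f f' => ?_⟩
    rw [Subtype.dist_eq, BoundedContinuousFunction.dist_le (by positivity)]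
    intro t
    have := hlip f.1 f'.1 (dist f f') f.2 f'.2 (fun t => by
      rw [Subtype.dist_eq, ← Real.dist_eq]; exact dist_coe_le_dist t) t
    rw [Real.dist_eq]
    push_cast
    change |Φ f.1 t - Φ f'.1 t| ≤ _
    linarith
  refine ⟨(hg.fixedPoint g).1, (hg.fixedPoint g).2, fun t => ?_⟩
  have := hg.fixedPoint_isFixedPt
  conv_lhs => rw [← this]
  rfl

theorem EP_cos (E : ℝ) : EP (fun t => E * cos t) :=
  ⟨⟨by fun_prop, fun t => by simp⟩, fun t => by simp⟩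

namespace Hyp

variable {p : ℕ} {N r : ℝ} (h : Hyp p N r)
include h

/-- fixed point of the Lyapunov-Schmidt reduction -/
def IsFix (_h : Hyp p N r) (E : ℝ) (κ : ℝ → ℝ) : Prop :=
  Ball r κ ∧ ∀ t, κ t = E * cos t + Tinv p N (Nl (π / p) N κ) t

theorem T_lip {κ κ' : ℝ → ℝ} (hκ : Ball r κ) (hκ' : Ball r κ') {d : ℝ} (hd : ∀ t, |κ t - κ' t| ≤ d)
    (t : ℝ) : |Tinv p N (Nl (π / p) N κ) t - Tinv p N (Nl (π / p) N κ') t| ≤ d / 2 := by
  rw [← h.T_sub (h.Nl_EP hκ).toCP (h.Nl_EP hκ').toCP]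
  have := h.T_le ((h.Nl_EP hκ).cont.sub (h.Nl_EP hκ').cont) (h.Nl_lip hκ hκ' hd) t
  exact this.trans (by linarith)

theorem exists_isFix {E : ℝ} (h0 : 0 ≤ E) (h1 : E ≤ r / 8) : ∃ κ, h.IsFix E κ := by
  apply exists_fix h.rad.pos (fun κ t => E * cos t + Tinv p N (Nl (π / p) N κ) t)
  · intro κ hκ
    have a1 := h.T_EP (h.Nl_EP hκ)
    have a2 := EP_cos E
    refine ⟨⟨⟨a2.cont.add a1.cont, a2.per.add a1.per⟩, fun t => by simp only [a1.even, cos_neg]⟩,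
      fun t => ?_⟩
    have a3 := h.T_le (h.Nl_EP hκ).cont (h.Nl_le hκ hκ.le) t
    have a4 : |E * cos t| ≤ E := by
      rw [abs_mul, abs_of_nonneg h0]; exact mul_le_of_le_one_right h0 (abs_cos_le_one t)
    exact (abs_add_le _ _).trans (by linarith)
  · intro κ κ' d hκ hκ' hd t
    rw [add_sub_add_left_eq_sub]
    exact h.T_lip hκ hκ' hd t

theorem fix_lip {E E' : ℝ} {κ κ' : ℝ → ℝ} (hκ : h.IsFix E κ) (hκ' : h.IsFix E' κ') (t : ℝ) :
    |κ t - κ' t| ≤ 2 * |E - E'| := by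
  apply sup_trick (f := fun t => κ t - κ' t) (B := r / 2)
  · intro t
    exact (abs_sub _ _).trans (by linarith [hκ.1.le t, hκ'.1.le t])
  · intro d hd t
    have a1 := h.T_lip hκ.1 hκ'.1 hd t
    have a2 : |(E - E') * cos t| ≤ |E - E'| := by
      rw [abs_mul]; exact mul_le_of_le_one_right (abs_nonneg _) (abs_cos_le_one t)
    have e : κ t - κ' t = (E - E') * cos t +
        (Tinv p N (Nl (π / p) N κ) t - Tinv p N (Nl (π / p) N κ') t) := by
      conv_lhs => rw [hκ.2 t, hκ'.2 t]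
      ring
    rw [e]
    exact (abs_add_le _ _).trans (by linarith)

theorem fix_le {E : ℝ} (h0 : 0 ≤ E) {κ : ℝ → ℝ} (hκ : h.IsFix E κ) (t : ℝ) : |κ t| ≤ 2 * E := by
  apply sup_trick (B := r / 4) hκ.1.le
  intro d hd t
  have a3 := h.T_le (h.Nl_EP hκ.1).cont (h.Nl_le hκ.1 hd) t
  have a4 : |E * cos t| ≤ E := by
    rw [abs_mul, abs_of_nonneg h0]; exact mul_le_of_le_one_right h0 (abs_cos_le_one t)
  rw [hκ.2 t]
  exact (abs_add_le _ _).trans (by linarith)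

theorem fix_D {E : ℝ} (h0 : 0 ≤ E) (h1 : E ≤ 1 / 2) {κ : ℝ → ℝ} (hκ : h.IsFix E κ) (t : ℝ) :
    |κ (t - π / p) - κ (t + π / p)| ≤ 2 * (π / p) := by
  have a1 := h.DT_le (h.Nl_EP hκ.1).toCP (h.Nl_le hκ.1 hκ.1.le) t
  have hb := h.bpos
  have a2 : |E * (cos (t - π / p) - cos (t + π / p))| ≤ π / p := by
    rw [abs_mul, abs_of_nonneg h0]
    have := abs_cos_sub_cos_le (t - π / p) (t + π / p)
    rw [show t - π / p - (t + π / p) = -(2 * (π / p)) by ring, abs_neg,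
      abs_of_pos (by linarith : 0 < 2 * (π / p))] at this
    nlinarith [abs_nonneg (cos (t - π / p) - cos (t + π / p))]
  have e : κ (t - π / p) - κ (t + π / p) = E * (cos (t - π / p) - cos (t + π / p)) +
      (Tinv p N (Nl (π / p) N κ) (t - π / p) - Tinv p N (Nl (π / p) N κ) (t + π / p)) := by
    conv_lhs => rw [hκ.2 (t - π / p), hκ.2 (t + π / p)]
    ring
  rw [e]
  have a4 := mul_le_mul h.rad.le h.Ninv (inv_pos.2 h.Npos).le (by norm_num)
  exact (abs_add_le _ _).trans (by nlinarith)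

end Hyp

theorem F2 {z : ℝ} (hz : |z| ≤ 1) : |exp z - 1 - z - z ^ 2 / 2| ≤ |z| ^ 3 / 4 := by
  have := Real.exp_bound hz (n := 3) (by norm_num)
  simp only [Finset.sum_range_succ, Finset.sum_range_zero, Nat.factorial] at this
  norm_num at this
  rw [show exp z - 1 - z - z ^ 2 / 2 = exp z - (1 + z + z ^ 2 / 2) by ring]
  nlinarith [pow_nonneg (abs_nonneg z) 3]

theorem F3 {z : ℝ} (hz : |z| ≤ 1) : |exp z - 1 - z - z ^ 2 / 2 - z ^ 3 / 6| ≤ |z| ^ 4 / 16 := by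
  have := Real.exp_bound hz (n := 4) (by norm_num)
  simp only [Finset.sum_range_succ, Finset.sum_range_zero, Nat.factorial] at this
  norm_num at this
  rw [show exp z - 1 - z - z ^ 2 / 2 - z ^ 3 / 6 = exp z - (1 + z + z ^ 2 / 2 + z ^ 3 / 6) by ring]
  nlinarith [pow_nonneg (abs_nonneg z) 4]

theorem abs_mul_le' {a b A B : ℝ} (ha : |a| ≤ A) (hb : |b| ≤ B) : |a * b| ≤ A * B := by
  rw [abs_mul]; exact mul_le_mul ha hb (abs_nonneg _) ((abs_nonneg _).trans ha)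

theorem expand {p : ℕ} {N : ℝ} (h : Par p N) {E ε : ℝ} (h0 : 0 ≤ E) (h1 : E ≤ 1 / 30)
    (hε : 0 ≤ ε) {κ n : ℝ → ℝ} (hn : EP n) (hκ : ∀ t, κ t = E * cos t + Tinv p N n t)
    (hle : ∀ t, |κ t| ≤ 2 * E)
    (hnear : ∀ t, |n t - (exp ((κ (t + π / p) + κ (t - π / p)) / 2) - 1 -
      (κ (t + π / p) + κ (t - π / p)) / 2)| ≤ ε)
    (hc1 : 1 - cos (π / p) ≤ ε) (hc2 : 1 - cos (2 * (π / p)) ≤ ε) :
    |ac 1 n + E ^ 3 * (1 - (ell p N 2)⁻¹) / 8| ≤ 1302 * E ^ 4 + 6 * ε := by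
  set b := π / p with hb
  set lam := (ell p N 2)⁻¹ with hlam
  have hl0 : 0 < lam := inv_pos.2 (by linarith [h.ell_two])
  have hl1 : lam ≤ 1 := inv_le_one_of_one_le₀ (by linarith [h.ell_two])
  set z : ℝ → ℝ := fun t => (κ (t + b) + κ (t - b)) / 2 with hz
  have hz1 : ∀ t, |z t| ≤ 2 * E := by
    intro t
    have a1 := abs_le.1 (hle (t + b))
    have a2 := abs_le.1 (hle (t - b))
    simp only [hz]
    rw [abs_le]; constructor <;> linarith [a1.1, a1.2, a2.1, a2.2]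
  have hz1' : ∀ t, |z t| ≤ 1 := fun t => (hz1 t).trans (by linarith)
  have hnear' : ∀ t, |n t - (exp (z t) - 1 - z t)| ≤ ε := hnear
  have hzeq : ∀ t, z t = E * cos t - E * cos t * (1 - cos b) +
      (Tinv p N n (t + b) + Tinv p N n (t - b)) / 2 := by
    intro t
    simp only [hz]
    rw [hκ (t + b), hκ (t - b), cos_add, cos_sub]; ring
  have hcb : |1 - cos b| ≤ ε := by rw [abs_of_nonneg (by linarith [cos_le_one b])]; exact hc1
  have hc2b : |1 - cos (2 * b)| ≤ ε := by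
    rw [abs_of_nonneg (by linarith [cos_le_one (2 * b)])]; exact hc2
  have hEc : ∀ t, |E * cos t| ≤ E := fun t => by
    rw [abs_mul, abs_of_nonneg h0]; exact mul_le_of_le_one_right h0 (abs_cos_le_one t)
  have hEε : E * ε ≤ ε / 30 := by nlinarith
  have hE2 : 0 ≤ E ^ 2 := sq_nonneg E
  have hE3 : 0 ≤ E ^ 3 := pow_nonneg h0 3
  have hE4 : 0 ≤ E ^ 4 := pow_nonneg h0 4
  have hE2ε : E ^ 2 * ε ≤ ε / 30 := by nlinarith
  -- step 1
  have s1 : ∀ t, |n t| ≤ 4 * E ^ 2 + ε := by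
    intro t
    have a1 := abs_le.1 (abs_exp_sub_one_sub_id_le (hz1' t))
    have a2 := abs_le.1 (hnear' t)
    have a3 : z t ^ 2 ≤ (2 * E) ^ 2 := sq_le_sq' (abs_le.1 (hz1 t)).1 (abs_le.1 (hz1 t)).2
    rw [abs_le]; constructor <;> nlinarith [a1.1, a1.2, a2.1, a2.2]
  have s1' : ∀ t, |z t - E * cos t| ≤ 28 * E ^ 2 + 8 * ε := by
    intro t
    have a1 := abs_le.1 (h.T_le hn.cont s1 (t + b))
    have a2 := abs_le.1 (h.T_le hn.cont s1 (t - b))
    have a3 := abs_le.1 (abs_mul_le' (hEc t) hcb)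
    rw [hzeq, abs_le]; constructor <;> linarith [a1.1, a1.2, a2.1, a2.2, a3.1, a3.2]
  -- step 2
  have s2 : ∀ t, |n t - (E ^ 2 / 4 + E ^ 2 / 4 * cos (2 * t))| ≤ 44 * E ^ 3 + 2 * ε := by
    intro t
    have a1 := F2 (hz1' t)
    have a1' : |z t| ^ 3 ≤ (2 * E) ^ 3 := pow_le_pow_left₀ (abs_nonneg _) (hz1 t) 3
    have a2 := abs_le.1 (hnear' t)
    have a3 := abs_le.1 (abs_mul_le' (s1' t) ((abs_add_le (z t) (E * cos t)).trans
      (add_le_add (hz1 t) (hEc t))))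
    have a4 := abs_le.1 (a1.trans (by linarith : |z t| ^ 3 / 4 ≤ (2 * E) ^ 3 / 4))
    rw [cos_two_mul, abs_le]
    constructor <;> nlinarith [a2.1, a2.2, a3.1, a3.2, a4.1, a4.2]
  have ep : EP (fun t => E ^ 2 / 4 + E ^ 2 / 4 * cos (2 * t)) := by
    refine ⟨⟨by fun_prop, fun t => ?_⟩, fun t => by simp⟩
    rw [mul_add, show 2 * (2 * π) = (2 : ℕ) * (2 * π) by norm_num, cos_add_nat_mul_two_pi]
  have s2' : ∀ t, |Tinv p N n t - (-(E ^ 2 / 4) + E ^ 2 / 4 * lam * cos (2 * t))| ≤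
      7 * (44 * E ^ 3 + 2 * ε) := by
    intro t
    rw [← h.T_trig, ← h.T_sub hn.toCP ep.toCP]
    exact h.T_le (hn.cont.sub ep.cont) s2 t
  set g : ℝ → ℝ := fun t => -(1 / 4) + lam / 4 * cos (2 * t) with hg
  have hlc : ∀ t, |lam * cos (2 * t)| ≤ 1 := fun t => by
    have := abs_mul_le' (a := lam) (A := 1) (by rw [abs_of_pos hl0]; exact hl1) (abs_cos_le_one (2 * t))
    linarith
  have hg1 : ∀ t, |g t| ≤ 1 / 2 := by
    intro t
    have := abs_le.1 (hlc t)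
    simp only [hg]
    rw [abs_le]; constructor <;> linarith [this.1, this.2]
  have s3 : ∀ t, |z t - (E * cos t + E ^ 2 * g t)| ≤ 308 * E ^ 3 + 15 * ε := by
    intro t
    have a1 := abs_le.1 (s2' (t + b))
    have a2 := abs_le.1 (s2' (t - b))
    have a3 := abs_le.1 (abs_mul_le' (hEc t) hcb)
    have a4 := abs_le.1 (abs_mul_le' (a := E ^ 2) (A := E ^ 2) (by rw [abs_of_nonneg hE2])
      (abs_mul_le' (hlc t) hc2b))
    rw [mul_add 2 t b, cos_add] at a1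
    rw [mul_sub 2 t b, cos_sub] at a2
    simp only [hg]
    rw [hzeq, abs_le]
    constructor <;> linarith [a1.1, a1.2, a2.1, a2.2, a3.1, a3.2, a4.1, a4.2]
  -- step 3
  have s4 : ∀ t, |n t - (E ^ 2 * cos t ^ 2 / 2 + E ^ 3 * (cos t * g t + cos t ^ 3 / 6))| ≤
      651 * E ^ 4 + 3 * ε := by
    intro t
    have a1 := F3 (hz1' t)
    have a1' : |z t| ^ 4 ≤ (2 * E) ^ 4 := pow_le_pow_left₀ (abs_nonneg _) (hz1 t) 4
    have a4 := abs_le.1 (a1.trans (by linarith : |z t| ^ 4 / 16 ≤ (2 * E) ^ 4 / 16))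
    have a2 := abs_le.1 (hnear' t)
    have b0 : |E ^ 2 * g t| ≤ E ^ 2 * (1 / 2) := abs_mul_le' (by rw [abs_of_nonneg hE2]) (hg1 t)
    have b1 : |z t + (E * cos t + E ^ 2 * g t)| ≤ 4 * E := by
      refine (abs_add_le _ _).trans ((add_le_add (hz1 t) ((abs_add_le _ _).trans
        (add_le_add (hEc t) b0))).trans ?_)
      nlinarith
    have b2 := abs_le.1 (abs_mul_le' (s3 t) b1)
    have b3 := abs_le.1 (abs_mul_le' b0 b0)
    have b4 : |z t * z t + z t * (E * cos t) + (E * cos t) * (E * cos t)| ≤ 7 * E ^ 2 := by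
      refine (abs_add_three _ _ _).trans ?_
      have := abs_mul_le' (hz1 t) (hz1 t)
      have := abs_mul_le' (hz1 t) (hEc t)
      have := abs_mul_le' (hEc t) (hEc t)
      nlinarith
    have b5 := abs_le.1 (abs_mul_le' (s1' t) b4)
    have e : n t - (E ^ 2 * cos t ^ 2 / 2 + E ^ 3 * (cos t * g t + cos t ^ 3 / 6)) =
        (n t - (exp (z t) - 1 - z t)) + (exp (z t) - 1 - z t - z t ^ 2 / 2 - z t ^ 3 / 6) +
        (z t - (E * cos t + E ^ 2 * g t)) * (z t + (E * cos t + E ^ 2 * g t)) / 2 +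
        (E ^ 2 * g t) * (E ^ 2 * g t) / 2 +
        (z t - E * cos t) * (z t * z t + z t * (E * cos t) + (E * cos t) * (E * cos t)) / 6 := by
      ring
    rw [e, abs_le]
    constructor <;> nlinarith [a2.1, a2.2, a4.1, a4.2, b2.1, b2.2, b3.1, b3.2, b5.1, b5.2]
  have s5 := abs_ac_le s4 1
  have hgc : Continuous g := by simp only [hg]; fun_prop
  rw [ac_sub hn.cont (by fun_prop)] at s5
  have e2 : (fun t => E ^ 2 * cos t ^ 2 / 2 + E ^ 3 * (cos t * g t + cos t ^ 3 / 6)) =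
      fun t => E ^ 2 / 4 * cos ((0 : ℕ) * t) + E ^ 2 / 4 * cos ((2 : ℕ) * t) +
        (-(E ^ 3 * (1 - lam) / 8)) * cos ((1 : ℕ) * t) +
        E ^ 3 * (lam / 8 + 1 / 24) * cos ((3 : ℕ) * t) := by
    ext t
    simp only [hg]
    push_cast
    rw [zero_mul, cos_zero, one_mul, cos_two_mul, cos_three_mul]; ring
  rw [e2, ac_add (by fun_prop) (by fun_prop), ac_add (by fun_prop) (by fun_prop),
    ac_add (by fun_prop) (by fun_prop), ac_mul, ac_mul, ac_mul, ac_mul, ac_cos, ac_cos, ac_cos,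
    ac_cos] at s5
  norm_num at s5
  linarith

end Pool.Agent.H856Z.Cau
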