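import Mathlib

namespace Pool.Agent.H856Z.Cau

open Set Real MeasureTheory intervalIntegral

/-- cosine coefficient -/
noncomputable def ac (m : ℕ) (f : ℝ → ℝ) : ℝ := π⁻¹ * ∫ t in (0:ℝ)..2 * π, f t * cos (m * t)

/-- sine coefficient -/
noncomputable def bs (m : ℕ) (f : ℝ → ℝ) : ℝ := π⁻¹ * ∫ t in (0:ℝ)..2 * π, f t * sin (m * t)

/-- continuous and periodic -/
structure CP (f : ℝ → ℝ) : Prop where
  cont : Continuous f
  per : Function.Periodic f (2 * π)

/-- continuous, periodic and even -/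
structure EP (f : ℝ → ℝ) : Prop extends CP f where
  even : ∀ t, f (-t) = f t

theorem coeff_eq {f : ℝ → ℝ} (hf : Continuous f) (n : ℤ) :
    fourierCoeffOn two_pi_pos (fun t => (f t : ℂ)) n =
      (((2 * π)⁻¹ * ∫ t in (0:ℝ)..2 * π, f t * cos (n * t) : ℝ) : ℂ) -
        (((2 * π)⁻¹ * ∫ t in (0:ℝ)..2 * π, f t * sin (n * t) : ℝ) : ℂ) * Complex.I := by
  rw [fourierCoeffOn_eq_integral]
  have h1 : ∀ x : ℝ, fourier (-n) (x : AddCircle (2 * π - 0)) • (f x : ℂ) =
      ((f x * cos (n * x) : ℝ) : ℂ) - ((f x * sin (n * x) : ℝ) : ℂ) * Complex.I := by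
    intro x
    rw [fourier_coe_apply]
    have : (2 * π * Complex.I * ((-n : ℤ) : ℂ) * x / ((2 * π - 0 : ℝ) : ℂ)) =
        ((-(n * x) : ℝ) : ℂ) * Complex.I := by
      have : (π : ℂ) ≠ 0 := by exact_mod_cast pi_ne_zero
      push_cast; field_simp; ring
    rw [this, Complex.exp_mul_I, ← Complex.ofReal_cos, ← Complex.ofReal_sin, cos_neg, sin_neg]
    push_cast; simp only [smul_eq_mul]; ring
  simp_rw [h1]
  rw [intervalIntegral.integral_sub, intervalIntegral.integral_mul_const, intervalIntegral.integral_ofReal, intervalIntegral.integral_ofReal]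
  · simp only [sub_zero, Complex.real_smul]; push_cast; ring
  · exact (by fun_prop : Continuous _).intervalIntegrable _ _
  · exact (by fun_prop : Continuous _).intervalIntegrable _ _

theorem parseval {f : ℝ → ℝ} (hf : Continuous f) :
    HasSum (fun n : ℤ => ((2 * π)⁻¹ * ∫ t in (0:ℝ)..2 * π, f t * cos (n * t)) ^ 2 +
      ((2 * π)⁻¹ * ∫ t in (0:ℝ)..2 * π, f t * sin (n * t)) ^ 2)
      ((2 * π)⁻¹ * ∫ t in (0:ℝ)..2 * π, f t ^ 2) := by
  have hL : MemLp (fun t => (f t : ℂ)) 2 (volume.restrict (Ioc 0 (2 * π))) := by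
    obtain ⟨C, hC⟩ := (isCompact_Icc (a := (0:ℝ)) (b := 2 * π)).exists_bound_of_continuousOn
      (f := fun t => (f t : ℂ)) (by fun_prop)
    refine MemLp.of_bound (by fun_prop : Continuous _).aestronglyMeasurable C ?_
    exact (ae_restrict_iff' measurableSet_Ioc).2 (ae_of_all _ fun x hx => hC x ⟨hx.1.le, hx.2⟩)
  have h := hasSum_sq_fourierCoeffOn two_pi_pos hL
  simp only [coeff_eq hf, sub_zero, smul_eq_mul, Complex.norm_real, norm_eq_abs, sq_abs] at h
  convert h using 2 with n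
  rw [Complex.sq_norm, Complex.normSq_apply]
  simp only [Complex.sub_re, Complex.ofReal_re, Complex.mul_re, Complex.I_re, Complex.ofReal_im,
    Complex.I_im, Complex.sub_im, Complex.mul_im]
  ring

theorem bessel {f : ℝ → ℝ} (hf : Continuous f) {B : ℝ} (hB : ∀ t, |f t| ≤ B) (s : Finset ℕ) :
    ∑ m ∈ s, ac m f ^ 2 ≤ 4 * B ^ 2 := by
  have h := parseval hf
  have h1 := sum_le_hasSum (s.map ⟨fun m : ℕ => (m : ℤ), Nat.cast_injective⟩)
    (fun i _ => by positivity) h
  rw [Finset.sum_map] at h1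
  have h2 : (2 * π)⁻¹ * ∫ t in (0:ℝ)..2 * π, f t ^ 2 ≤ B ^ 2 := by
    have : ∫ t in (0:ℝ)..2 * π, f t ^ 2 ≤ ∫ t in (0:ℝ)..2 * π, B ^ 2 := by
      apply integral_mono_on two_pi_pos.le ((by fun_prop : Continuous _).intervalIntegrable _ _)
        (continuous_const.intervalIntegrable _ _)
      intro x _
      exact sq_le_sq' (abs_le.1 (hB x)).1 (abs_le.1 (hB x)).2
    rw [intervalIntegral.integral_const, smul_eq_mul, sub_zero] at this
    rw [inv_mul_le_iff₀ two_pi_pos]; exact this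
  have h3 : ∑ m ∈ s, ac m f ^ 2 ≤ 4 * ∑ m ∈ s,
      (((2 * π)⁻¹ * ∫ t in (0:ℝ)..2 * π, f t * cos ((m : ℤ) * t)) ^ 2 +
      ((2 * π)⁻¹ * ∫ t in (0:ℝ)..2 * π, f t * sin ((m : ℤ) * t)) ^ 2) := by
    rw [Finset.mul_sum]
    apply Finset.sum_le_sum
    intro m _
    have : ac m f ^ 2 = 4 * ((2 * π)⁻¹ * ∫ t in (0:ℝ)..2 * π, f t * cos ((m : ℤ) * t)) ^ 2 := by
      simp only [ac, Int.cast_natCast]; field_simp; ring
    rw [this]; nlinarith [sq_nonneg ((2 * π)⁻¹ * ∫ t in (0:ℝ)..2 * π, f t * sin ((m : ℤ) * t))]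
  simp only [Function.Embedding.coeFn_mk] at h1
  linarith

theorem uniq {f : ℝ → ℝ} (hf : CP f) (ha : ∀ m, ac m f = 0) (hb : ∀ m, bs m f = 0) (t : ℝ) :
    f t = 0 := by
  have h := parseval hf.cont
  have hpi : π⁻¹ ≠ 0 := inv_ne_zero pi_ne_zero
  have h0 : ∀ n : ℤ, ((2 * π)⁻¹ * ∫ t in (0:ℝ)..2 * π, f t * cos (n * t)) ^ 2 +
      ((2 * π)⁻¹ * ∫ t in (0:ℝ)..2 * π, f t * sin (n * t)) ^ 2 = 0 := by
    intro n
    obtain ⟨m, rfl | rfl⟩ := Int.eq_nat_or_neg n
    · have h1 := (mul_eq_zero.1 (ha m)).resolve_left hpi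
      have h2 := (mul_eq_zero.1 (hb m)).resolve_left hpi
      simp only [Int.cast_natCast, h1, h2]; simp
    · have h1 := (mul_eq_zero.1 (ha m)).resolve_left hpi
      have h2 := (mul_eq_zero.1 (hb m)).resolve_left hpi
      simp only [Int.cast_neg, Int.cast_natCast, neg_mul, cos_neg, sin_neg, mul_neg,
        intervalIntegral.integral_neg, h1, h2]; simp
  simp only [h0] at h
  have h1 := h.unique hasSum_zero
  have h2 : ∫ t in (0:ℝ)..2 * π, f t ^ 2 = 0 :=
    (mul_eq_zero.1 h1).resolve_left (inv_ne_zero two_pi_pos.ne')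
  by_contra hne
  obtain ⟨y, hy, hy'⟩ := hf.per.exists_mem_Ico₀ two_pi_pos t
  have hc : Continuous fun t => f t ^ 2 := hf.cont.pow 2
  have := intervalIntegral.integral_lt_integral_of_continuousOn_of_le_of_exists_lt
    (f := fun _ => (0:ℝ)) (g := fun t => f t ^ 2) two_pi_pos continuousOn_const hc.continuousOn
    (fun x _ => sq_nonneg _) ⟨y, ⟨hy.1, hy.2.le⟩, by rw [← hy']; positivity⟩
  rw [h2] at this; simp at this

theorem int_shift {g : ℝ → ℝ} (hg : Function.Periodic g (2 * π)) (b : ℝ) :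
    ∫ t in (0:ℝ)..2 * π, g (t + b) = ∫ t in (0:ℝ)..2 * π, g t := by
  rw [integral_comp_add_right, zero_add, add_comm, hg.intervalIntegral_add_eq b 0, zero_add]

theorem per_cos (m : ℕ) (a : ℝ) : Function.Periodic (fun t => cos (m * (t - a))) (2 * π) := by
  intro t
  simp only
  rw [show (m : ℝ) * (t + 2 * π - a) = m * (t - a) + m * (2 * π) by ring, cos_add_nat_mul_two_pi]

theorem per_sin (m : ℕ) (a : ℝ) : Function.Periodic (fun t => sin (m * (t - a))) (2 * π) := by
  intro t
  simp only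
  rw [show (m : ℝ) * (t + 2 * π - a) = m * (t - a) + m * (2 * π) by ring, sin_add_nat_mul_two_pi]

theorem ac_shift {f : ℝ → ℝ} (hf : CP f) (m : ℕ) (b : ℝ) :
    ac m (fun t => f (t + b)) = cos (m * b) * ac m f + sin (m * b) * bs m f := by
  have h := int_shift (hf.per.mul (per_cos m b)) b
  simp only [Pi.mul_apply, add_sub_cancel_right] at h
  have hc := hf.cont
  unfold ac bs
  rw [h]
  simp_rw [mul_sub, cos_sub]
  have : ∀ t, f t * (cos (m * t) * cos (m * b) + sin (m * t) * sin (m * b)) =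
      cos (m * b) * (f t * cos (m * t)) + sin (m * b) * (f t * sin (m * t)) := fun t => by ring
  simp_rw [this]
  rw [intervalIntegral.integral_add ((by fun_prop : Continuous _).intervalIntegrable _ _)
    ((by fun_prop : Continuous _).intervalIntegrable _ _), intervalIntegral.integral_const_mul, intervalIntegral.integral_const_mul]
  ring

theorem bs_shift {f : ℝ → ℝ} (hf : CP f) (m : ℕ) (b : ℝ) :
    bs m (fun t => f (t + b)) = cos (m * b) * bs m f - sin (m * b) * ac m f := by
  have h := int_shift (hf.per.mul (per_sin m b)) b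
  simp only [Pi.mul_apply, add_sub_cancel_right] at h
  have hc := hf.cont
  unfold ac bs
  rw [h]
  simp_rw [mul_sub, sin_sub]
  have : ∀ t, f t * (sin (m * t) * cos (m * b) - cos (m * t) * sin (m * b)) =
      cos (m * b) * (f t * sin (m * t)) - sin (m * b) * (f t * cos (m * t)) := fun t => by ring
  simp_rw [this]
  rw [intervalIntegral.integral_sub ((by fun_prop : Continuous _).intervalIntegrable _ _)
    ((by fun_prop : Continuous _).intervalIntegrable _ _), intervalIntegral.integral_const_mul, intervalIntegral.integral_const_mul]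
  ring

theorem int_odd {g : ℝ → ℝ} (hg : Function.Periodic g (2 * π)) (ho : ∀ t, g (-t) = -g t) :
    ∫ t in (0:ℝ)..2 * π, g t = 0 := by
  have h1 : ∫ t in (0:ℝ)..2 * π, g t = ∫ t in (-π)..π, g t := by
    have := hg.intervalIntegral_add_eq 0 (-π)
    rw [zero_add, show -π + 2 * π = π by ring] at this; exact this
  have h2 : ∫ t in (-π)..π, g (-t) = ∫ t in (-π)..π, g t := by
    rw [integral_comp_neg]; simp
  simp_rw [ho] at h2
  rw [intervalIntegral.integral_neg] at h2
  linarith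

theorem bs_even {f : ℝ → ℝ} (hf : EP f) (m : ℕ) : bs m f = 0 := by
  unfold bs
  rw [int_odd (g := fun t => f t * sin (m * t)) (by simpa using hf.per.mul (per_sin m 0))
    (fun t => by simp [hf.even]), mul_zero]

theorem ac_odd {f : ℝ → ℝ} (hf : CP f) (ho : ∀ t, f (-t) = -f t) (m : ℕ) : ac m f = 0 := by
  unfold ac
  rw [int_odd (g := fun t => f t * cos (m * t)) (by simpa using hf.per.mul (per_cos m 0))
    (fun t => by simp [ho]), mul_zero]

theorem ac_deriv {f f' : ℝ → ℝ} (hp : Function.Periodic f (2 * π)) (hd : ∀ t, HasDerivAt f (f' t) t)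
    (hc : Continuous f') (m : ℕ) : ac m f' = m * bs m f := by
  have hf : Continuous f := continuous_iff_continuousAt.2 fun t => (hd t).continuousAt
  have h1 : ∀ t, HasDerivAt (fun t => f t * cos (m * t))
      (f' t * cos (m * t) - m * (f t * sin (m * t))) t := by
    intro t
    have h := (hd t).mul ((hasDerivAt_id t).const_mul (m : ℝ)).cos
    refine h.congr_deriv ?_
    simp; ring
  have h2 := integral_eq_sub_of_hasDerivAt (a := 0) (b := 2 * π) (fun t _ => h1 t)
    ((by fun_prop : Continuous _).intervalIntegrable _ _)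
  rw [intervalIntegral.integral_sub ((by fun_prop : Continuous _).intervalIntegrable _ _)
    ((by fun_prop : Continuous _).intervalIntegrable _ _), intervalIntegral.integral_const_mul] at h2
  have h3 : f (2 * π) = f 0 := by simpa using hp 0
  rw [h3, cos_nat_mul_two_pi, mul_zero, cos_zero, sub_self] at h2
  unfold ac bs
  rw [sub_eq_zero.1 h2]; ring

theorem ac_add {f g : ℝ → ℝ} (hf : Continuous f) (hg : Continuous g) (m : ℕ) :
    ac m (fun t => f t + g t) = ac m f + ac m g := by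
  unfold ac
  simp_rw [add_mul]
  rw [intervalIntegral.integral_add ((by fun_prop : Continuous _).intervalIntegrable _ _)
    ((by fun_prop : Continuous _).intervalIntegrable _ _), mul_add]

theorem ac_sub {f g : ℝ → ℝ} (hf : Continuous f) (hg : Continuous g) (m : ℕ) :
    ac m (fun t => f t - g t) = ac m f - ac m g := by
  unfold ac
  simp_rw [sub_mul]
  rw [intervalIntegral.integral_sub ((by fun_prop : Continuous _).intervalIntegrable _ _)
    ((by fun_prop : Continuous _).intervalIntegrable _ _), mul_sub]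

theorem bs_sub {f g : ℝ → ℝ} (hf : Continuous f) (hg : Continuous g) (m : ℕ) :
    bs m (fun t => f t - g t) = bs m f - bs m g := by
  unfold bs
  simp_rw [sub_mul]
  rw [intervalIntegral.integral_sub ((by fun_prop : Continuous _).intervalIntegrable _ _)
    ((by fun_prop : Continuous _).intervalIntegrable _ _), mul_sub]

theorem ac_mul (a : ℝ) (f : ℝ → ℝ) (m : ℕ) : ac m (fun t => a * f t) = a * ac m f := by
  unfold ac
  simp_rw [mul_assoc]
  rw [intervalIntegral.integral_const_mul]; ring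

theorem int_cos_int (k : ℤ) : ∫ t in (0:ℝ)..2 * π, cos (k * t) = if k = 0 then 2 * π else 0 := by
  split_ifs with h
  · simp [h]
  · have hk : (k : ℝ) ≠ 0 := by exact_mod_cast h
    rw [integral_comp_mul_left (fun t => cos t) hk, integral_cos, mul_zero, sin_zero,
      show (k : ℝ) * (2 * π) = 0 + k * (2 * π) by ring, sin_add_int_mul_two_pi]
    simp

theorem ac_cos (m n : ℕ) : ac m (fun t => cos (n * t)) =
    if m = n then (if m = 0 then 2 else 1) else 0 := by
  unfold ac
  have : ∀ t : ℝ, cos (n * t) * cos (m * t) =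
      1 / 2 * cos (((n : ℤ) - m : ℤ) * t) + 1 / 2 * cos (((n : ℤ) + m : ℤ) * t) := by
    intro t; push_cast; rw [sub_mul, add_mul, cos_sub, cos_add]; ring
  simp_rw [this]
  rw [intervalIntegral.integral_add ((by fun_prop : Continuous _).intervalIntegrable _ _)
    ((by fun_prop : Continuous _).intervalIntegrable _ _), intervalIntegral.integral_const_mul, intervalIntegral.integral_const_mul,
    int_cos_int, int_cos_int]
  have := pi_ne_zero
  split_ifs <;> first | omega | (field_simp; try ring)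

theorem ac_const (a : ℝ) (m : ℕ) : ac m (fun _ => a) = if m = 0 then 2 * a else 0 := by
  have h := ac_mul a (fun t => cos ((0 : ℕ) * t)) m
  rw [ac_cos] at h
  simp only [Nat.cast_zero, zero_mul, cos_zero, mul_one] at h
  rw [h]; split_ifs <;> ring

theorem abs_ac_le {f : ℝ → ℝ} {B : ℝ} (hB : ∀ t, |f t| ≤ B) (m : ℕ) : |ac m f| ≤ 2 * B := by
  unfold ac
  have h := norm_integral_le_of_norm_le_const (a := 0) (b := 2 * π) (C := B)
    (f := fun t => f t * cos (m * t)) (fun x _ => by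
      rw [norm_eq_abs, abs_mul]
      exact (mul_le_of_le_one_right (abs_nonneg _) (abs_cos_le_one _)).trans (hB x))
  rw [norm_eq_abs, sub_zero, abs_of_pos two_pi_pos] at h
  rw [abs_mul, abs_of_pos (inv_pos.2 pi_pos), inv_mul_le_iff₀ pi_pos]
  linarith

/-- cosine series -/
noncomputable def cser (w : ℕ → ℝ) (t : ℝ) : ℝ := ∑' m : ℕ, w m * cos (m * t)

theorem cser_summable {w : ℕ → ℝ} (hw : Summable fun m => |w m|) (t : ℝ) :
    Summable fun m : ℕ => w m * cos (m * t) :=
  Summable.of_norm_bounded hw fun m => by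
    rw [norm_eq_abs, abs_mul]
    exact mul_le_of_le_one_right (abs_nonneg _) (abs_cos_le_one _)

theorem cser_EP {w : ℕ → ℝ} (hw : Summable fun m => |w m|) : EP (cser w) := by
  refine ⟨⟨?_, fun t => ?_⟩, fun t => ?_⟩
  · exact continuous_tsum (fun m => by fun_prop) hw fun m t => by
      rw [norm_eq_abs, abs_mul]
      exact mul_le_of_le_one_right (abs_nonneg _) (abs_cos_le_one _)
  · unfold cser; congr 1; ext m
    rw [mul_add, cos_add_nat_mul_two_pi]
  · unfold cser; simp

theorem ac_cser {w : ℕ → ℝ} (hw : Summable fun m => |w m|) (h0 : w 0 = 0) (m : ℕ) :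
    ac m (cser w) = w m := by
  have h1 : HasSum (fun n : ℕ => ∫ t in (0:ℝ)..2 * π, w n * cos (n * t) * cos (m * t))
      (∫ t in (0:ℝ)..2 * π, cser w t * cos (m * t)) := by
    apply intervalIntegral.hasSum_integral_of_dominated_convergence (fun n _ => |w n|)
    · intro n; exact (by fun_prop : Continuous _).aestronglyMeasurable
    · intro n
      refine ae_of_all _ fun t _ => ?_
      rw [norm_eq_abs, abs_mul, abs_mul, mul_assoc]
      exact mul_le_of_le_one_right (abs_nonneg _)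
        (mul_le_one₀ (abs_cos_le_one _) (abs_nonneg _) (abs_cos_le_one _))
    · exact ae_of_all _ fun t _ => hw
    · exact continuous_const.intervalIntegrable _ _
    · exact ae_of_all _ fun t _ => (cser_summable hw t).hasSum.mul_right _
  have h2 := h1.mul_left π⁻¹
  have h3 : ∀ n : ℕ, π⁻¹ * ∫ t in (0:ℝ)..2 * π, w n * cos (n * t) * cos (m * t) =
      if n = m then w m else 0 := by
    intro n
    have := ac_mul (w n) (fun t => cos (n * t)) m
    rw [ac_cos] at this
    unfold ac at this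
    rw [this]
    split_ifs with a b c d
    · subst a; rw [b, h0]; simp
    · omega
    · subst a; simp
    · omega
    · omega
    · simp
  simp_rw [h3] at h2
  exact h2.unique (hasSum_ite_eq m (w m))

theorem inv_sq_sum (s : Finset ℕ) : ∑ m ∈ s, (1 / (m : ℝ)) ^ 2 ≤ 2 := by
  have h := sum_le_hasSum s (fun i _ => by positivity) hasSum_zeta_two
  have : π ^ 2 / 6 ≤ 2 := by nlinarith [pi_lt_d2, pi_pos]
  simp_rw [div_pow, one_pow]
  linarith

theorem cs_bound {f : ℝ → ℝ} (hf : Continuous f) {B W : ℝ} (hB : ∀ t, |f t| ≤ B) (hW : 0 ≤ W)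
    {v : ℕ → ℝ} (hv : ∀ m, |v m| ≤ W * (1 / m)) (s : Finset ℕ) :
    ∑ m ∈ s, |v m * ac m f| ≤ 3 * W * B := by
  have hB0 : 0 ≤ B := (abs_nonneg _).trans (hB 0)
  have h1 := Finset.sum_mul_sq_le_sq_mul_sq s (fun m => |v m|) (fun m => |ac m f|)
  simp only [sq_abs] at h1
  have h2 : ∑ m ∈ s, v m ^ 2 ≤ W ^ 2 * 2 := by
    calc ∑ m ∈ s, v m ^ 2 ≤ ∑ m ∈ s, W ^ 2 * (1 / (m : ℝ)) ^ 2 := by
          apply Finset.sum_le_sum
          intro m _
          rw [← mul_pow, ← sq_abs]
          exact pow_le_pow_left₀ (abs_nonneg _) (hv m) 2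
      _ ≤ W ^ 2 * 2 := by
          rw [← Finset.mul_sum]; exact mul_le_mul_of_nonneg_left (inv_sq_sum s) (sq_nonneg _)
  have h3 := bessel hf hB s
  have h4 : (∑ m ∈ s, v m ^ 2) * ∑ m ∈ s, ac m f ^ 2 ≤ (W ^ 2 * 2) * (4 * B ^ 2) :=
    mul_le_mul h2 h3 (Finset.sum_nonneg fun _ _ => sq_nonneg _) (by positivity)
  simp_rw [abs_mul]
  apply le_of_sq_le_sq (h1.trans (h4.trans ?_)) (by positivity)
  nlinarith [sq_nonneg (W * B)]

theorem cs_summable {f : ℝ → ℝ} (hf : Continuous f) {B W : ℝ} (hB : ∀ t, |f t| ≤ B) (hW : 0 ≤ W)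
    {v : ℕ → ℝ} (hv : ∀ m, |v m| ≤ W * (1 / m)) : Summable fun m => |v m * ac m f| :=
  summable_of_sum_le (fun _ => abs_nonneg _) (cs_bound hf hB hW hv)

theorem cs_tsum {f : ℝ → ℝ} (hf : Continuous f) {B W : ℝ} (hB : ∀ t, |f t| ≤ B) (hW : 0 ≤ W)
    {v : ℕ → ℝ} (hv : ∀ m, |v m| ≤ W * (1 / m)) {g : ℕ → ℝ} (hg : ∀ m, |g m| ≤ 1) :
    |∑' m, v m * ac m f * g m| ≤ 3 * W * B := by
  have hs := cs_summable hf hB hW hv
  have h1 := tsum_of_norm_bounded (f := fun m => v m * ac m f * g m) hs.hasSum (fun m => by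
    rw [norm_eq_abs, abs_mul]; exact mul_le_of_le_one_right (abs_nonneg _) (hg m))
  exact h1.trans (hs.tsum_le_of_sum_le (cs_bound hf hB hW hv))

theorem CP.bdd {f : ℝ → ℝ} (hf : CP f) : ∃ B, ∀ t, |f t| ≤ B := by
  obtain ⟨B, hB⟩ := (hf.per.isBounded_of_continuous two_pi_pos.ne' hf.cont).exists_norm_le
  exact ⟨B, fun t => hB _ (mem_range_self t)⟩

end Pool.Agent.H856Z.Cau
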