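import Pool.Agent.H856Z.Cau.Curve

namespace Pool.Agent.H856Z.Cau

open Set Complex

/-- Analytic data of a caustic with constant arc. -/
structure Data (θ k u u' : ℝ → ℝ) (L c T : ℝ) (N : ℕ) : Prop where
  N2 : 2 ≤ N
  Tpos : 0 < T
  θder : ∀ s, HasDerivAt θ (k s) s
  kcont : Continuous k
  kpos : ∀ s, 0 < k s
  θper : ∀ s, θ (s + T) = θ s + 2 * Real.pi / N
  uder : ∀ s, HasDerivAt u (u' s) s
  u'cont : Continuous u'
  uper : Function.Periodic u T
  upos : ∀ s, 0 < u s
  ult : ∀ s, u s < L
  cpos : 0 < c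
  clt : c < N * T
  δlt : ∀ s, θ (s + c) - θ s < Real.pi
  eq1 : ∀ s, u s * k s = (L - u s) * k (s + c)
  eq2 : ∀ s, u s * k s = (1 + u' s) * Real.tan ((θ (s + c) - θ s) / 2)
  nonconst : ∃ s, k (s + c) ≠ k s

theorem line_smul (P d : ℂ) {a : ℝ} (ha : a ≠ 0) : line P (a • d) = line P d := by
  ext w
  constructor
  · rintro ⟨r, rfl⟩; exact ⟨r * a, by rw [smul_smul]⟩
  · rintro ⟨r, rfl⟩; exact ⟨r / a, by rw [smul_smul, div_mul_cancel₀ _ ha]⟩

theorem line_shift (P d : ℂ) (a : ℝ) : line (P + a • d) d = line P d := by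
  ext w
  constructor
  · rintro ⟨r, rfl⟩; exact ⟨a + r, by rw [add_smul, add_assoc]⟩
  · rintro ⟨r, rfl⟩; exact ⟨r - a, by rw [sub_smul]; abel⟩

theorem mirror_e {ρ : ℝ} (hρ : ρ ≠ 0) (Φ a r : ℝ) :
    mirror (ρ • e Φ) (r • e a) = r • e (2 * Φ - a) := by
  unfold mirror
  have h1 : inner ℝ (r • e a) (ρ • e Φ) = r * ρ * Real.cos (Φ - a) := by
    rw [real_inner_smul_left, real_inner_smul_right, Complex.inner, Real.cos_sub]
    simp [e_re, e_im]; ring
  rw [h1, norm_smul, norm_e, mul_one, Real.norm_eq_abs, sq_abs, smul_smul]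
  have h2 : 2 * (r * ρ * Real.cos (Φ - a)) / ρ ^ 2 * ρ = r * (2 * Real.cos (Φ - a)) := by
    field_simp
  rw [h2]
  have h3 : e a = e Φ * e (-(Φ - a)) := by rw [← e_add]; ring_nf
  have h4 : e (2 * Φ - a) = e Φ * e (Φ - a) := by rw [← e_add]; ring_nf
  have h5 : e (Φ - a) + e (-(Φ - a)) = ((2 * Real.cos (Φ - a) : ℝ) : ℂ) := by
    apply Complex.ext
    · rw [Complex.add_re, e_re, e_re, Real.cos_neg, Complex.ofReal_re]; ring
    · rw [Complex.add_im, e_im, e_im, Real.sin_neg, Complex.ofReal_im]; ring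
  rw [h3, h4]
  simp only [Complex.real_smul]
  rw [Complex.ofReal_mul, ← h5]; ring

theorem e_tan {a : ℝ} (ha : Real.cos a ≠ 0) :
    (1 : ℂ) + (Real.tan a : ℝ) * I = ((Real.cos a)⁻¹ : ℝ) • e a := by
  apply Complex.ext
  · simp only [Complex.add_re, Complex.one_re, Complex.mul_re, Complex.ofReal_re, Complex.I_re,
      Complex.ofReal_im, Complex.I_im, Complex.smul_re, e_re, smul_eq_mul]
    field_simp; ring
  · simp only [Complex.add_im, Complex.one_im, Complex.mul_im, Complex.ofReal_re, Complex.I_re,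
      Complex.ofReal_im, Complex.I_im, Complex.smul_im, e_im, smul_eq_mul, Real.tan_eq_sin_div_cos]
    field_simp; ring

namespace Data

variable {θ k u u' : ℝ → ℝ} {L c T : ℝ} {N : ℕ} (h : Data θ k u u' L c T N)
include h

theorem θcont : Continuous θ := continuous_iff_continuousAt.2 fun t => (h.θder t).continuousAt

theorem θmono : StrictMono θ :=
  strictMono_of_deriv_pos fun s => by rw [(h.θder s).deriv]; exact h.kpos s

theorem Npos : (0 : ℝ) < N := by have := h.N2; positivity

theorem ω_ne : e (2 * Real.pi / N) ≠ 1 := by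
  intro h1
  have h2 := congrArg Complex.re h1
  rw [e_re, Complex.one_re] at h2
  have hN : (2 : ℝ) ≤ N := by exact_mod_cast h.N2
  have h3 : 0 < 2 * Real.pi / N := by have := h.Npos; have := Real.pi_pos; positivity
  have h4 : 2 * Real.pi / N < 2 * Real.pi := by
    rw [div_lt_iff₀ h.Npos]; nlinarith [Real.pi_pos]
  have := (Real.cos_eq_one_iff_of_lt_of_lt (by linarith [Real.pi_pos]) h4).1 h2
  linarith

theorem θperN (n : ℕ) (s : ℝ) : θ (s + n * T) = θ s + n * (2 * Real.pi / N) := by
  induction n with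
  | zero => simp
  | succ n ih => push_cast; rw [add_mul, one_mul, ← add_assoc, h.θper, ih]; ring

theorem θperfull (s : ℝ) : θ (s + N * T) = θ s + 2 * Real.pi := by
  rw [h.θperN]; have := h.Npos; field_simp

omit h in
theorem per_of_rot {f : ℝ → ℂ} {ω : ℂ} (hf : ∀ s, f (s + T) = ω * f s) (n : ℕ) (s : ℝ) :
    f (s + n * T) = ω ^ n * f s := by
  induction n with
  | zero => simp
  | succ n ih => push_cast; rw [add_mul, one_mul, ← add_assoc, hf, ih]; ring

theorem ω_pow : e (2 * Real.pi / N) ^ N = 1 := by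
  have : ∀ n : ℕ, e (2 * Real.pi / N) ^ n = e (n * (2 * Real.pi / N)) := by
    intro n
    induction n with
    | zero => simp [e_zero]
    | succ n ih => rw [pow_succ, ih, ← e_add]; push_cast; ring_nf
  rw [this, ← e_two_pi]; congr 1; have := h.Npos; field_simp

theorem exists_curve : ∃ γ : ℝ → ℂ, (∀ s, HasDerivAt γ (e (θ s)) s) ∧
    ∀ s, γ (s + T) = e (2 * Real.pi / N) * γ s := by
  have hc : Continuous (fun s => e (θ s)) := continuous_e.comp h.θcont
  set ω := e (2 * Real.pi / N) with hω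
  have hω1 : ω - 1 ≠ 0 := sub_ne_zero.2 h.ω_ne
  set γ : ℝ → ℂ := fun s => (∫ x in (0:ℝ)..T, e (θ x)) / (ω - 1) + ∫ x in (0:ℝ)..s, e (θ x)
  have hd : ∀ s, HasDerivAt γ (e (θ s)) s := fun s =>
    ((hc.integral_hasStrictDerivAt 0 s).hasDerivAt).const_add _
  refine ⟨γ, hd, fun s => ?_⟩
  have h1 : ∀ s, HasDerivAt (fun s => γ (s + T) - ω * γ s) 0 s := by
    intro s
    have := ((hd (s + T)).comp_add_const s T).sub ((hd s).const_mul ω)
    rw [h.θper, e_add, mul_comm, sub_self] at this
    exact this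
  have h2 := is_const_of_deriv_eq_zero (fun s => (h1 s).differentiableAt) (fun s => (h1 s).deriv) s 0
  simp only [γ, zero_add, intervalIntegral.integral_same, add_zero] at h2
  have h3 : (∫ x in (0:ℝ)..T, e (θ x)) / (ω - 1) + (∫ x in (0:ℝ)..T, e (θ x)) -
      ω * ((∫ x in (0:ℝ)..T, e (θ x)) / (ω - 1)) = 0 := by field_simp; ring
  rw [h3] at h2
  exact sub_eq_zero.1 h2

theorem δpos (s : ℝ) : 0 < θ (s + c) - θ s := sub_pos.2 (h.θmono (by linarith [h.cpos]))

theorem cospos (s : ℝ) : 0 < Real.cos ((θ (s + c) - θ s) / 2) :=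
  Real.cos_pos_of_mem_Ioo ⟨by linarith [h.δpos s, Real.pi_pos], by linarith [h.δlt s]⟩

theorem tanpos (s : ℝ) : 0 < Real.tan ((θ (s + c) - θ s) / 2) :=
  Real.tan_pos_of_pos_of_lt_pi_div_two (by linarith [h.δpos s]) (by linarith [h.δlt s])

theorem fpos (s : ℝ) : 0 < 1 + u' s := by
  have h1 := mul_pos (h.upos s) (h.kpos s)
  rw [h.eq2] at h1
  exact (pos_iff_pos_of_mul_pos h1).2 (h.tanpos s)

theorem main : ∃ (Ω : Set ℂ) (z : ℝ → ℂ) (l : ℝ) (K : Set ℂ) (γ : ℝ → ℂ) (m c : ℝ),
    IsTable Ω z l ∧ (¬ ∃ (O : ℂ) (R : ℝ), range z = Metric.sphere O R) ∧ IsConvexCurve K γ m ∧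
      IsCaustic Ω z K γ ∧ 0 < c ∧ c < m ∧ ConstantArc z γ c := by
  obtain ⟨γ, hγ, hrot⟩ := h.exists_curve
  set ω := e (2 * Real.pi / N) with hω
  have hNT : 0 < N * T := mul_pos h.Npos h.Tpos
  have hγper : Function.Periodic γ (N * T) := fun s => by
    rw [per_of_rot hrot, h.ω_pow, one_mul]
  have Oγ : Oval γ (fun _ => 1) θ (N * T) :=
    ⟨hNT, fun s => by rw [one_smul]; exact hγ s, continuous_const, fun _ => one_pos, h.θcont,
      h.θmono, h.θperfull, hγper⟩
  have hdγ : ∀ s, deriv γ s = e (θ s) := fun s => (hγ s).deriv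
  set P : ℝ → ℂ := fun s => γ s + u s • e (θ s) with hP
  set Φ : ℝ → ℝ := fun s => (θ s + θ (s + c)) / 2 with hΦ
  set ρ : ℝ → ℝ := fun s => (1 + u' s) * (Real.cos ((θ (s + c) - θ s) / 2))⁻¹ with hρ
  have hρpos : ∀ s, 0 < ρ s := fun s => mul_pos (h.fpos s) (inv_pos.2 (h.cospos s))
  have hPd : ∀ s, HasDerivAt P (ρ s • e (Φ s)) s := by
    intro s
    have h1 := (hγ s).add ((h.uder s).smul (hasDerivAt_e (h.θder s)))
    have h2 : e (θ s) + (u s • (e (θ s) * (k s * I)) + u' s • e (θ s)) = ρ s • e (Φ s) := by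
      have h3 : e (Φ s) = e (θ s) * e ((θ (s + c) - θ s) / 2) := by
        rw [← e_add]; simp only [hΦ]; ring_nf
      have h4 := e_tan (h.cospos s).ne'
      have h5 : ((u s : ℂ) * k s) = (1 + u' s) * (Real.tan ((θ (s + c) - θ s) / 2) : ℝ) := by
        exact_mod_cast h.eq2 s
      simp only [hρ, Complex.real_smul] at h4 ⊢
      rw [h3, Complex.ofReal_mul]
      push_cast at h4 h5 ⊢
      linear_combination (e (θ s) * I) * h5 + (e (θ s) * (1 + u' s)) * h4
    rw [h2] at h1
    exact h1
  have hQd : ∀ s, HasDerivAt (fun s => γ (s + c) - (L - u s) • e (θ (s + c))) (ρ s • e (Φ s)) s := by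
    intro s
    have h1 := ((hγ (s + c)).comp_add_const s c).sub (((h.uder s).const_sub L).smul
      (hasDerivAt_e ((h.θder (s + c)).comp_add_const s c)))
    have h2 : e (θ (s + c)) - ((L - u s) • (e (θ (s + c)) * (k (s + c) * I)) +
        -u' s • e (θ (s + c))) = ρ s • e (Φ s) := by
      have h3 : e (Φ s) = e (θ (s + c)) * e (-((θ (s + c) - θ s) / 2)) := by
        rw [← e_add]; simp only [hΦ]; ring_nf
      have h4 := e_tan (a := -((θ (s + c) - θ s) / 2)) (by rw [Real.cos_neg]; exact (h.cospos s).ne')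
      rw [Real.cos_neg, Real.tan_neg] at h4
      have h5 : (((L - u s : ℝ) : ℂ) * k (s + c)) =
          (1 + u' s) * (Real.tan ((θ (s + c) - θ s) / 2) : ℝ) := by
        exact_mod_cast (h.eq1 s).symm.trans (h.eq2 s)
      simp only [hρ, Complex.real_smul] at h4 ⊢
      rw [h3, Complex.ofReal_mul]
      push_cast at h4 h5 ⊢
      linear_combination (-(e (θ (s + c)) * I)) * h5 + (e (θ (s + c)) * (1 + u' s)) * h4
    rw [h2] at h1
    exact h1
  have hPQ : ∀ s, P s = γ (s + c) - (L - u s) • e (θ (s + c)) := by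
    set Δ : ℝ → ℂ := fun s => P s - (γ (s + c) - (L - u s) • e (θ (s + c))) with hΔ
    have h1 : ∀ s, HasDerivAt Δ 0 s := fun s => by
      have := (hPd s).sub (hQd s); rw [sub_self] at this; exact this
    have h2 := is_const_of_deriv_eq_zero (fun s => (h1 s).differentiableAt) (fun s => (h1 s).deriv)
    intro s
    have h3 : Δ (s + T) = ω * Δ s := by
      simp only [hΔ, hP]
      rw [show s + T + c = s + c + T by ring, hrot, hrot, h.uper s, h.θper, h.θper, e_add, e_add]
      simp only [Complex.real_smul]; ring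
    rw [h2 (s + T) s] at h3
    have h4 : (ω - 1) * Δ s = 0 := by linear_combination -h3
    have h5 := (mul_eq_zero.1 h4).resolve_left (sub_ne_zero.2 h.ω_ne)
    exact sub_eq_zero.1 h5
  have hθc := h.θcont
  have OP : Oval P ρ Φ (N * T) := by
    refine ⟨hNT, hPd, ?_, hρpos, ?_, ?_, ?_, ?_⟩
    · apply (continuous_const.add h.u'cont).mul
      exact Continuous.inv₀ (by fun_prop) fun s => (h.cospos s).ne'
    · simp only [hΦ]; fun_prop
    · intro a b hab
      have := h.θmono hab
      have := h.θmono (show a + c < b + c by linarith)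
      simp only [hΦ]; linarith
    · intro s
      simp only [hΦ]
      rw [show s + N * T + c = s + c + N * T by ring, h.θperfull, h.θperfull]; ring
    · intro s
      simp only [hP]
      rw [hγper s, (h.uper.nat_mul N) s, Oγ.e_per]
  have hv : ∀ s, 0 < L - u s := fun s => sub_pos.2 (h.ult s)
  have hPQ' : ∀ s, P s = γ (s + c) + (-(L - u s)) • e (θ (s + c)) := fun s => by
    rw [hPQ, neg_smul, sub_eq_add_neg]
  have ht0 : ∀ s w, ht (P s) (θ s) w = ht (γ s) (θ s) w := fun s w => ht_shift _ _ _ _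
  have ht1 : ∀ s w, ht (P s) (θ (s + c)) w = ht (γ (s + c)) (θ (s + c)) w := fun s w => by
    rw [hPQ']; exact ht_shift _ _ _ _
  have hγne : ∀ s, γ (s + c) ≠ γ s := by
    intro s e1
    have := Oγ.pos_of_between (s := s) (t := s + c) (by linarith [h.cpos]) (by linarith [h.clt])
    rw [e1] at this; simp [ht] at this
  have hsum : ∀ s w, ht (P s) (θ s) w + ht (P s) (θ (s + c)) w =
      2 * Real.cos ((θ (s + c) - θ s) / 2) * ht (P s) (Φ s) w := by
    intro s w
    unfold ht
    have h3 : e (-θ s) = e (-Φ s) * e ((θ (s + c) - θ s) / 2) := by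
      rw [← e_add]; simp only [hΦ]; ring_nf
    have h4 : e (-θ (s + c)) = e (-Φ s) * e (-((θ (s + c) - θ s) / 2)) := by
      rw [← e_add]; simp only [hΦ]; ring_nf
    rw [h3, h4, ← mul_assoc, ← mul_assoc]
    simp only [Complex.mul_im _ (e (_ / 2)), Complex.mul_im _ (e (-(_ / 2))), e_re, e_im,
      Real.cos_neg, Real.sin_neg]
    ring
  -- the tangent lines through `P s`
  have htan : ∀ s s', P s ∈ line (γ s') (e (θ s')) →
      (∃ n : ℤ, s' = s + n * (N * T)) ∨ ∃ n : ℤ, s' = s + c + n * (N * T) := by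
    rintro s s' ⟨r, hr⟩
    by_contra hcon
    rw [not_or] at hcon
    have key : ∀ a, (¬ ∃ n : ℤ, s' = a + n * (N * T)) →
        0 < ht (γ a) (θ a) (γ s') ∧ 0 < ht (γ s') (θ s') (γ a) := by
      intro a ha
      refine ⟨(Oγ.eq_or_pos a s').resolve_left ha, (Oγ.eq_or_pos s' a).resolve_left ?_⟩
      rintro ⟨n, hn⟩
      exact ha ⟨-n, by push_cast; linarith⟩
    have g' : γ s' = P s + (-r) • e (θ s') := by rw [hr, neg_smul]; abel
    have t' : ∀ w, ht (γ s') (θ s') w = ht (P s) (θ s') w := fun w => by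
      rw [hr]; exact (ht_shift _ _ _ _).symm
    obtain ⟨a1, a2⟩ := key s hcon.1
    obtain ⟨b1, b2⟩ := key (s + c) hcon.2
    have g0 : γ s = P s + (-u s) • e (θ s) := by simp only [hP]; rw [neg_smul]; abel
    have g1 : γ (s + c) = P s + (L - u s) • e (θ (s + c)) := by rw [hPQ]; abel
    rw [← ht0, g', ht_on] at a1
    rw [t', g0, ht_on] at a2
    rw [← ht1, g', ht_on] at b1
    rw [t', g1, ht_on] at b2
    have n1 : Real.sin (θ s - θ s') = -Real.sin (θ s' - θ s) := by rw [← Real.sin_neg]; ring_nf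
    have n2 : Real.sin (θ (s + c) - θ s') = -Real.sin (θ s' - θ (s + c)) := by
      rw [← Real.sin_neg]; ring_nf
    rw [n1] at a2
    rw [n2] at b2
    have hu := h.upos s
    have hv' := hv s
    have c1 : 0 < Real.sin (θ s' - θ s) := by nlinarith
    have c2 : Real.sin (θ s' - θ (s + c)) < 0 := by nlinarith
    nlinarith
  refine ⟨interior (body P Φ), P, N * T, body γ θ, γ, N * T, c, OP.isTable, ?_, ?_, ?_, h.cpos,
    h.clt, ?_⟩
  · -- not a circle
    rintro ⟨O, R, hO⟩
    have hR : ∀ s, ‖P s - O‖ = R := fun s => by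
      have : P s ∈ Metric.sphere O R := hO ▸ mem_range_self s
      simpa using this
    have hre : ∀ s, ((O - P s) * e (-Φ s)).re = 0 := by
      intro s
      have h1 := ((hPd s).sub_const O).norm_sq
      have h2 : (fun s => ‖P s - O‖ ^ 2) = fun _ => R ^ 2 := funext fun s => by rw [hR]
      rw [h2] at h1
      have h3 := h1.unique (hasDerivAt_const s _)
      rw [real_inner_smul_right, Complex.inner] at h3
      have h4 : (e (Φ s) * (starRingEnd ℂ) (P s - O)).re = 0 := by
        have := hρpos s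
        rcases mul_eq_zero.1 h3 with h5 | h5
        · norm_num at h5
        · exact (mul_eq_zero.1 h5).resolve_left this.ne'
      simp only [Complex.mul_re, e_re, e_im, Real.cos_neg, Real.sin_neg, Complex.conj_re,
        Complex.conj_im, Complex.sub_re, Complex.sub_im] at h4 ⊢
      linarith
    have hO' : ∀ s, O = P s + (ht (P s) (Φ s) O) • e (Φ s + Real.pi / 2) := by
      intro s
      have h1 : (O - P s) * e (-Φ s) = (ht (P s) (Φ s) O : ℝ) * I := by
        apply Complex.ext
        · rw [hre]; simp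
        · simp [ht]
      have h2 : e (Real.pi / 2) = I := by
        apply Complex.ext <;> simp [e_re, e_im]
      rw [e_add, h2, Complex.real_smul]
      have h3 := e_mul_neg (Φ s)
      linear_combination (e (Φ s)) * h1 - (O - P s) * h3
    have hy : ∀ s, |ht (P s) (Φ s) O| = R := by
      intro s
      rw [← hR s]
      conv_rhs => rw [hO' s]
      rw [sub_add_cancel_left, norm_neg, norm_smul, norm_e, mul_one, Real.norm_eq_abs]
    have hRpos : 0 < R := by
      rcases eq_or_lt_of_le ((hR 0) ▸ norm_nonneg (P 0 - O)) with h1 | h1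
      · exfalso
        have e1 : ∀ s, P s = O := fun s => by
          have := hR s; rw [← h1] at this; exact sub_eq_zero.1 (norm_eq_zero.1 this)
        have := OP.pos_of_between (s := 0) (t := N * T / 2) (by linarith) (by linarith)
        rw [e1, e1] at this; simp [ht] at this
      · exact h1
    have p0 : ∀ s, ht (γ s) (θ s) O = ht (P s) (Φ s) O * Real.cos ((θ (s + c) - θ s) / 2) := by
      intro s
      rw [← ht0]
      conv_lhs => rw [hO' s]
      rw [ht_on, ← Real.sin_add_pi_div_two]; congr 2; simp only [hΦ]; ring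
    have p1 : ∀ s, ht (γ (s + c)) (θ (s + c)) O =
        ht (P s) (Φ s) O * Real.cos ((θ (s + c) - θ s) / 2) := by
      intro s
      rw [← ht1]
      conv_lhs => rw [hO' s]
      rw [ht_on, ← Real.sin_pi_div_two_sub]; congr 2; simp only [hΦ]; ring
    have hδ : ∀ s, θ (s + c + c) - θ (s + c) = θ (s + c) - θ s := by
      intro s
      have e1 := congrArg abs ((p0 (s + c)).symm.trans (p1 s))
      rw [abs_mul, abs_mul, hy, hy, abs_of_pos (h.cospos _), abs_of_pos (h.cospos _)] at e1
      have e2 := mul_left_cancel₀ hRpos.ne' e1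
      have := Real.injOn_cos ⟨by linarith [h.δpos (s + c)], by linarith [h.δlt (s + c), Real.pi_pos]⟩
        ⟨by linarith [h.δpos s], by linarith [h.δlt s, Real.pi_pos]⟩ e2
      linarith
    have hk : ∀ s, k (s + c + c) - k (s + c) = k (s + c) - k s := by
      intro s
      have d1 : HasDerivAt (fun s => θ (s + c) - θ s) (k (s + c) - k s) s :=
        ((h.θder (s + c)).comp_add_const s c).sub (h.θder s)
      have d2 : HasDerivAt (fun s => θ (s + c + c) - θ (s + c)) (k (s + c + c) - k (s + c)) s :=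
        (((h.θder (s + c + c)).comp_add_const (s + c) c).comp_add_const s c).sub
          ((h.θder (s + c)).comp_add_const s c)
      rw [show (fun s => θ (s + c + c) - θ (s + c)) = fun s => θ (s + c) - θ s from funext hδ] at d2
      exact d2.unique d1
    have kper : Function.Periodic k T := by
      intro s
      have d1 := (h.θder (s + T)).comp_add_const s T
      rw [show (fun s => θ (s + T)) = fun s => θ s + 2 * Real.pi / N from funext h.θper] at d1
      exact d1.unique ((h.θder s).add_const _)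
    obtain ⟨B, hB⟩ := (kper.isBounded_of_continuous h.Tpos.ne' h.kcont).exists_norm_le
    obtain ⟨s, hs⟩ := h.nonconst
    have hn : ∀ n : ℕ, k (s + n * c + c) - k (s + n * c) = k (s + c) - k s ∧
        k (s + n * c) = k s + n * (k (s + c) - k s) := by
      intro n
      induction n with
      | zero => simp
      | succ n ih =>
        push_cast
        rw [show s + (n + 1) * c = s + n * c + c by ring, hk]
        exact ⟨ih.1, by linarith [ih.1, ih.2]⟩
    have hd : 0 < |k (s + c) - k s| := abs_pos.2 (sub_ne_zero.2 hs)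
    obtain ⟨n, hn'⟩ := exists_nat_gt (2 * B / |k (s + c) - k s|)
    rw [div_lt_iff₀ hd] at hn'
    have b1 := hB _ (mem_range_self (s + n * c))
    have b2 := hB _ (mem_range_self s)
    rw [Real.norm_eq_abs] at b1 b2
    have b3 : |(n : ℝ) * (k (s + c) - k s)| ≤ 2 * B := by
      rw [show (n : ℝ) * (k (s + c) - k s) = k (s + n * c) - k s by linarith [(hn n).2]]
      exact (abs_sub _ _).trans (by linarith)
    rw [abs_mul, Nat.abs_cast] at b3
    linarith
  · refine ⟨Oγ.isCompact_body, Oγ.interior_nonempty, Oγ.strictConvex_body, Oγ.c1Boundary, ?_,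
      fun s => by rw [hdγ, norm_e]⟩
    rw [show (2 : WithTop ℕ∞) = 1 + 1 from rfl, contDiff_succ_iff_deriv]
    refine ⟨fun s => (hγ s).differentiableAt, by simp, ?_⟩
    rw [show deriv γ = fun s => e (θ s) from funext hdγ, contDiff_one_iff_deriv]
    refine ⟨fun s => (hasDerivAt_e (h.θder s)).differentiableAt, ?_⟩
    rw [show deriv (fun s => e (θ s)) = fun s => e (θ s) * (k s * I) from
      funext fun s => (hasDerivAt_e (h.θder s)).deriv]
    have := h.kcont; have := continuous_e
    fun_prop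
  · constructor
    · intro w hw
      apply OP.mem_interior
      intro s
      have h1 := hw s
      have h2 := hw (s + c)
      have h3 := hsum s w
      rw [ht0, ht1] at h3
      have h4 : 0 < ht (γ s) (θ s) w + ht (γ (s + c)) (θ (s + c)) w := by
        rcases eq_or_lt_of_le h1 with h5 | h5
        · rcases eq_or_lt_of_le h2 with h6 | h6
          · exact absurd ((Oγ.eq_of_support hw h6.symm).symm.trans (Oγ.eq_of_support hw h5.symm))
              (hγne s)
          · linarith
        · linarith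
      rw [h3] at h4
      exact (pos_iff_pos_of_mul_pos h4).1 (by linarith [h.cospos s])
    · rintro s d hd ⟨s', hs'⟩
      rw [hdγ] at hs'
      have m1 : P s ∈ line (γ s') (e (θ s')) := hs' ▸ ⟨0, by simp⟩
      have m2 : P s + d ∈ line (γ s') (e (θ s')) := hs' ▸ ⟨1, by simp⟩
      obtain ⟨r, hr⟩ : ∃ r : ℝ, d = r • e (θ s') := by
        obtain ⟨r1, h1⟩ := m1
        obtain ⟨r2, h2⟩ := m2
        refine ⟨r2 - r1, ?_⟩
        rw [sub_smul]; linear_combination h2 - h1
      have hr0 : r ≠ 0 := by rintro rfl; simp at hr; exact hd hr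
      rw [OP.deriv_eq]
      rcases htan s s' m1 with ⟨n, rfl⟩ | ⟨n, rfl⟩
      · rw [Oγ.e_shift] at hr
        refine ⟨s + c, ?_⟩
        rw [hr, mirror_e (hρpos s).ne', line_smul _ _ hr0, hdγ,
          show 2 * Φ s - θ s = θ (s + c) by simp only [hΦ]; ring, hPQ', line_shift]
      · rw [Oγ.e_shift] at hr
        refine ⟨s, ?_⟩
        rw [hr, mirror_e (hρpos s).ne', line_smul _ _ hr0, hdγ,
          show 2 * Φ s - θ (s + c) = θ s by simp only [hΦ]; ring]
        exact line_shift _ _ _
  · intro s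
    refine ⟨s, u s, L - u s, h.upos s, hv s, by rw [hdγ], by rw [hdγ, hPQ], fun s' hs' => ?_⟩
    rw [hdγ] at hs'
    rcases htan s s' hs' with ⟨n, rfl⟩ | ⟨n, rfl⟩
    · left; exact Oγ.z_shift _ _
    · right; exact Oγ.z_shift _ _

end Data

end Pool.Agent.H856Z.Cau
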