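import Mathlib

namespace Pool.Agent.H856Z.Cau

open Set Real

noncomputable def Zf (a a' β : ℝ) : ℝ := tan (π / 4 + β) * (2 * (exp (-a) + exp (-a'))⁻¹)

noncomputable def Gf (a a' β : ℝ) : ℝ := Zf a a' β - (a + a') / 2 - 2 * β

noncomputable def Vf (y ξ : ℝ) : ℝ := y * (1 - ξ ^ 2)⁻¹ - y

theorem lip_of_strict {E : Type*} [NormedAddCommGroup E] [NormedSpace ℝ E] {f : E → ℝ}
    (h : HasStrictFDerivAt f (0 : E →L[ℝ] ℝ) 0) :
    ∃ r > 0, ∀ p q : E, ‖p‖ ≤ r → ‖q‖ ≤ r → |f p - f q| ≤ ‖p - q‖ / 200 := by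
  have h1 := h.isLittleO.def (c := 1 / 200) (by norm_num)
  obtain ⟨δ, hδ, h2⟩ := Metric.eventually_nhds_iff.1 h1
  refine ⟨δ / 2, by linarith, fun p q hp hq => ?_⟩
  have := h2 (y := (p, q)) (by
    rw [Prod.dist_eq, dist_zero_right, dist_zero_right]
    exact max_lt (by simp only; linarith) (by simp only; linarith))
  simp only [zero_apply, sub_zero, norm_eq_abs] at this
  linarith

theorem G_strict : HasStrictFDerivAt (𝕜 := ℝ) (fun p : ℝ × ℝ × ℝ => Gf p.1 p.2.1 p.2.2)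
    (0 : ℝ × ℝ × ℝ →L[ℝ] ℝ) 0 := by
  have h1 : HasStrictFDerivAt (𝕜 := ℝ) (fun p : ℝ × ℝ × ℝ => p.1) _ 0 := hasStrictFDerivAt_fst
  have h2 : HasStrictFDerivAt (𝕜 := ℝ) (fun p : ℝ × ℝ × ℝ => p.2.1) _ 0 := hasStrictFDerivAt_snd.fst
  have h3 : HasStrictFDerivAt (𝕜 := ℝ) (fun p : ℝ × ℝ × ℝ => p.2.2) _ 0 := hasStrictFDerivAt_snd.snd
  have hc : cos (π / 4 + (0 : ℝ × ℝ × ℝ).2.2) ≠ 0 := by
    simp
  have h4 := (hasStrictDerivAt_tan hc).comp_hasStrictFDerivAt (0 : ℝ × ℝ × ℝ) (h3.const_add (π / 4))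
  have h5 := h1.neg.exp.add h2.neg.exp
  have hne : exp (-(0 : ℝ × ℝ × ℝ).1) + exp (-(0 : ℝ × ℝ × ℝ).2.1) ≠ 0 := by positivity
  have h6 := (hasStrictDerivAt_inv hne).comp_hasStrictFDerivAt (0 : ℝ × ℝ × ℝ) h5
  have h7 := ((h4.mul (h6.const_mul 2)).sub ((h1.add h2).mul_const (2⁻¹ : ℝ))).sub (h3.const_mul 2)
  refine (h7.congr_fderiv ?_).congr_of_eventuallyEq (Filter.Eventually.of_forall fun p => ?_)
  · have hs : (√2 : ℝ) ^ 2 = 2 := sq_sqrt (by norm_num)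
    ext <;> simp [div_pow, hs] <;> norm_num
  · simp [Gf, Zf, div_eq_mul_inv]

theorem V_strict : HasStrictFDerivAt (𝕜 := ℝ) (fun p : ℝ × ℝ => Vf p.1 p.2) (0 : ℝ × ℝ →L[ℝ] ℝ) 0 := by
  have h1 : HasStrictFDerivAt (𝕜 := ℝ) (fun p : ℝ × ℝ => p.1) _ 0 := hasStrictFDerivAt_fst
  have h2 : HasStrictFDerivAt (𝕜 := ℝ) (fun p : ℝ × ℝ => p.2) _ 0 := hasStrictFDerivAt_snd
  have hne : 1 - (0 : ℝ × ℝ).2 * (0 : ℝ × ℝ).2 ≠ 0 := by simp
  have h6 := (hasStrictDerivAt_inv hne).comp_hasStrictFDerivAt (0 : ℝ × ℝ)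
    ((h2.mul h2).const_sub 1)
  have h7 := (h1.mul h6).sub h1
  refine (h7.congr_fderiv ?_).congr_of_eventuallyEq (Filter.Eventually.of_forall fun p => ?_)
  · ext <;> simp
  · simp [Vf, sq]

theorem F_strict : HasStrictFDerivAt (fun a : ℝ => exp a - a) (0 : ℝ →L[ℝ] ℝ) 0 := by
  have h := ((hasStrictDerivAt_exp 0).sub (hasStrictDerivAt_id 0)).hasStrictFDerivAt
  refine (h.congr_fderiv ?_).congr_of_eventuallyEq (Filter.Eventually.of_forall fun p => rfl)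
  ext; simp

/-- small Lipschitz constants on a small ball -/
structure Rad (r : ℝ) : Prop where
  pos : 0 < r
  le : r ≤ 1 / 100
  G : ∀ a a' β c c' γ d : ℝ, |a| ≤ r → |a'| ≤ r → |β| ≤ r → |c| ≤ r → |c'| ≤ r → |γ| ≤ r →
    |a - c| ≤ d → |a' - c'| ≤ d → |β - γ| ≤ d → |Gf a a' β - Gf c c' γ| ≤ d / 200
  V : ∀ y ξ y' ξ' d : ℝ, |y| ≤ r → |ξ| ≤ r → |y'| ≤ r → |ξ'| ≤ r → |y - y'| ≤ d → |ξ - ξ'| ≤ d →
    |Vf y ξ - Vf y' ξ'| ≤ d / 200
  F : ∀ a c : ℝ, |a| ≤ r → |c| ≤ r → |(exp a - a) - (exp c - c)| ≤ |a - c| / 200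

theorem exists_rad : ∃ r, Rad r := by
  obtain ⟨r1, h1, g1⟩ := lip_of_strict G_strict
  obtain ⟨r2, h2, g2⟩ := lip_of_strict V_strict
  obtain ⟨r3, h3, g3⟩ := lip_of_strict F_strict
  set r := min (min r1 r2) (min r3 (1 / 100)) with hr
  have a1 : r ≤ r1 := (min_le_left _ _).trans (min_le_left _ _)
  have a2 : r ≤ r2 := (min_le_left _ _).trans (min_le_right _ _)
  have a3 : r ≤ r3 := (min_le_right _ _).trans (min_le_left _ _)
  have a4 : r ≤ 1 / 100 := (min_le_right _ _).trans (min_le_right _ _)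
  refine ⟨r, by positivity, a4, ?_, ?_, ?_⟩
  · intro a a' β c c' γ d b1 b2 b3 b4 b5 b6 b7 b8 b9
    have := g1 (a, a', β) (c, c', γ)
      (by simp only [Prod.norm_def, norm_eq_abs]; exact max_le (by linarith) (max_le (by linarith) (by linarith)))
      (by simp only [Prod.norm_def, norm_eq_abs]; exact max_le (by linarith) (max_le (by linarith) (by linarith)))
    have h4 : ‖((a, a', β) : ℝ × ℝ × ℝ) - (c, c', γ)‖ ≤ d := by
      simp only [Prod.norm_def, norm_eq_abs, Prod.fst_sub, Prod.snd_sub]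
      exact max_le b7 (max_le b8 b9)
    simp only at this
    linarith
  · intro y ξ y' ξ' d b1 b2 b3 b4 b5 b6
    have := g2 (y, ξ) (y', ξ')
      (by simp only [Prod.norm_def, norm_eq_abs]; exact max_le (by linarith) (by linarith))
      (by simp only [Prod.norm_def, norm_eq_abs]; exact max_le (by linarith) (by linarith))
    have h4 : ‖((y, ξ) : ℝ × ℝ) - (y', ξ')‖ ≤ d := by
      simp only [Prod.norm_def, norm_eq_abs, Prod.fst_sub, Prod.snd_sub]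
      exact max_le b5 b6
    simp only at this
    linarith
  · intro a c b1 b2
    exact g3 a c (b1.trans a3) (b2.trans a3)

end Pool.Agent.H856Z.Cau
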