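import Pool.Agent.H856Z.Cau.Fix
import Pool.Agent.H856Z.Cau.Geo

namespace Pool.Agent.H856Z.Cau

open Set Real MeasureTheory

theorem exists_par {r E0 : ℝ} (hr : Rad r) (h0 : 0 < E0) (h1 : E0 ≤ 1 / 30) :
    ∃ p n : ℕ, 1 ≤ n ∧ Hyp p (8 * n : ℕ) r ∧ π / p ≤ E0 ^ 3 / 26000 ∧
      -(6 / 100 * E0 ^ 2) ≤ ell p (8 * n : ℕ) 1 ∧ ell p (8 * n : ℕ) 1 ≤ -(45 / 1000 * E0 ^ 2) := by
  have hη : 0 < min r (E0 ^ 3 / 26000) := lt_min hr.pos (by positivity)
  obtain ⟨p0, hp0⟩ := exists_nat_gt (π / min r (E0 ^ 3 / 26000))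
  set p := p0 + 100 with hp
  have hpp : (0 : ℝ) < p := by positivity
  have hb : π / p ≤ min r (E0 ^ 3 / 26000) := by
    rw [div_lt_iff₀ hη] at hp0
    rw [div_le_iff₀ hpp]
    have : (p0 : ℝ) ≤ p := by exact_mod_cast Nat.le_add_right p0 100
    nlinarith
  have hb1 : π / p ≤ r := hb.trans (min_le_left _ _)
  have hb2 : π / p ≤ E0 ^ 3 / 26000 := hb.trans (min_le_right _ _)
  have hb0 : 0 < π / p := div_pos pi_pos hpp
  set b := π / p with hbdef
  have hs0 : 0 < sin b := sin_pos_of_pos_of_lt_pi hb0 (by linarith [hr.le, pi_gt_three])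
  have hs1 : sin b ≤ b := sin_le hb0.le
  have hc : 99 / 100 ≤ cos b := by
    have := one_sub_sq_div_two_le_cos (x := b)
    nlinarith [hr.le]
  have hE2 : E0 ^ 2 ≤ 1 / 900 := by nlinarith
  have hE3 : E0 ^ 3 ≤ E0 ^ 2 / 30 := by nlinarith [sq_nonneg E0]
  set x := (cos b - 45 / 1000 * E0 ^ 2) / (8 * sin b) with hx
  have hx0 : 0 ≤ x := div_nonneg (by linarith) (by linarith)
  have hx1 := Nat.floor_le hx0
  have hx2 := Nat.lt_floor_add_one x
  set n := ⌊x⌋₊
  rw [hx, le_div_iff₀ (by linarith)] at hx1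
  rw [hx, div_lt_iff₀ (by linarith)] at hx2
  have lo : cos b - 6 / 100 * E0 ^ 2 ≤ ((8 * n : ℕ) : ℝ) * sin b := by
    push_cast; nlinarith [sq_nonneg E0]
  have hi : ((8 * n : ℕ) : ℝ) * sin b ≤ cos b - 45 / 1000 * E0 ^ 2 := by push_cast; linarith
  refine ⟨p, n, ?_, ⟨⟨by omega, by linarith, by linarith [cos_le_one b, sq_nonneg E0]⟩, hr, hb1⟩,
    hb2, ?_, ?_⟩
  · rcases Nat.eq_zero_or_pos n with h | h
    · rw [h] at lo; simp at lo; linarith
    · exact h
  · unfold ell; simp only [Nat.cast_one, mul_one, one_mul]; linarith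
  · unfold ell; simp only [Nat.cast_one, mul_one, one_mul]; linarith

theorem exists_sol : ∃ (p n : ℕ) (r E : ℝ) (κ : ℝ → ℝ) (h : Hyp p (8 * n : ℕ) r),
    1 ≤ n ∧ 0 < E ∧ h.IsFix E κ ∧ ell p (8 * n : ℕ) 1 * E = ac 1 (Nl (π / p) (8 * n : ℕ) κ) := by
  obtain ⟨r, hr⟩ := exists_rad
  set E0 := min (r / 8) (5 / 1000000) with hE0
  have h0 : 0 < E0 := lt_min (by linarith [hr.pos]) (by norm_num)
  have h1 : E0 ≤ r / 8 := min_le_left _ _
  have h2 : E0 ≤ 5 / 1000000 := min_le_right _ _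
  obtain ⟨p, n, hn, h, hb, hl1, hl2⟩ := exists_par hr h0 (by linarith)
  set N : ℝ := ((8 * n : ℕ) : ℝ) with hN
  have hex : ∀ E : ℝ, ∃ κ, 0 ≤ E → E ≤ r / 8 → h.IsFix E κ := by
    intro E
    by_cases hE : 0 ≤ E ∧ E ≤ r / 8
    · obtain ⟨κ, hκ⟩ := h.exists_isFix hE.1 hE.2
      exact ⟨κ, fun _ _ => hκ⟩
    · exact ⟨fun _ => 0, fun a b => absurd ⟨a, b⟩ hE⟩
  choose κ hκ using hex
  have hfix : ∀ E ∈ Icc (E0 / 2) E0, h.IsFix E (κ E) := fun E hE =>
    hκ E (by linarith [hE.1]) (by linarith [hE.2])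
  set A : ℝ → ℝ := fun E => ac 1 (Nl (π / p) N (κ E)) with hA
  have hAc : ContinuousOn A (Icc (E0 / 2) E0) := by
    apply LipschitzOnWith.continuousOn (K := 1)
    apply LipschitzOnWith.of_dist_le_mul
    intro E hE E' hE'
    have a1 := h.Nl_lip (hfix E hE).1 (hfix E' hE').1 (h.fix_lip (hfix E hE) (hfix E' hE'))
    have a2 := abs_ac_le a1 1
    rw [ac_sub (h.Nl_EP (hfix E hE).1).cont (h.Nl_EP (hfix E' hE').1).cont] at a2
    rw [Real.dist_eq, Real.dist_eq]
    simp only [hA, NNReal.coe_one, one_mul]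
    linarith [abs_nonneg (E - E')]
  have hb0 := h.bpos
  have hb1 := h.ble
  have hexp : ∀ E ∈ Icc (E0 / 2) E0,
      |A E + E ^ 3 * (1 - (ell p N 2)⁻¹) / 8| ≤ 1302 * E ^ 4 + 6 * (13 * (π / p)) := by
    intro E hE
    have hE0 : 0 ≤ E := by linarith [hE.1]
    have hf := hfix E hE
    refine expand h.toPar hE0 (by linarith [hE.2]) (by linarith) (h.Nl_EP hf.1) hf.2
      (h.fix_le hE0 hf) (fun t => ?_) ?_ ?_
    · exact (h.Nl_near hf.1 (h.fix_D hE0 (by linarith [hE.2]) hf) t).trans (by linarith)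
    · have := one_sub_sq_div_two_le_cos (x := π / p); nlinarith
    · have := one_sub_sq_div_two_le_cos (x := 2 * (π / p)); nlinarith
  have hl0 : 0 < (ell p N 2)⁻¹ := inv_pos.2 (by linarith [h.ell_two])
  have hl3 : (ell p N 2)⁻¹ ≤ 2 / 5 := by
    rw [inv_le_comm₀ (by linarith [h.ell_two]) (by norm_num)]; linarith [h.ell_two]
  have hE3 : 0 < E0 ^ 3 := by positivity
  have hE4 : E0 ^ 4 ≤ 5 / 1000000 * E0 ^ 3 := by nlinarith
  have hB : ContinuousOn (fun E => ell p N 1 * E - A E) (Icc (E0 / 2) E0) :=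
    (continuous_const.mul continuous_id).continuousOn.sub hAc
  obtain ⟨E, hE, hE'⟩ : (0 : ℝ) ∈ (fun E => ell p N 1 * E - A E) '' Icc (E0 / 2) E0 := by
    apply intermediate_value_Icc (by linarith) hB
    constructor
    · have a1 := abs_le.1 (hexp (E0 / 2) ⟨le_refl _, by linarith⟩)
      have a2 := mul_le_mul_of_nonneg_right hl2 h0.le
      have a3 := mul_pos hE3 hl0
      nlinarith [a1.1]
    · have a1 := abs_le.1 (hexp E0 ⟨by linarith, le_refl _⟩)
      have a2 := mul_le_mul_of_nonneg_right hl1 h0.le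
      have a3 := mul_le_mul_of_nonneg_left hl3 hE3.le
      nlinarith [a1.2]
  exact ⟨p, n, r, E, κ E, h, hn, by linarith [hE.1], hfix E hE, sub_eq_zero.1 hE'⟩

theorem Hyp.solve {p : ℕ} {N r E : ℝ} {κ : ℝ → ℝ} (h : Hyp p N r) (hf : h.IsFix E κ)
    (h1 : ell p N 1 * E = ac 1 (Nl (π / p) N κ)) :
    ac 1 κ = E ∧ mean (fun s => exp (κ s)) = 1 ∧ ∀ t, κ (t - π / p) - κ (t + π / p) =
      log (N + Xx (π / p) N κ t) - log (N - Xx (π / p) N κ t) := by
  have hκ := hf.1
  have hn := h.Nl_EP hκ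
  have hT := h.T_EP hn
  have hN := h.Npos
  have c1 := hκ.cont
  set b := π / p with hb
  have hac : ∀ m, ac m κ = E * (if m = 1 then 1 else 0) + ac m (Tinv p N (Nl b N κ)) := by
    intro m
    conv_lhs => rw [show κ = fun t => E * cos t + Tinv p N (Nl b N κ) t from funext hf.2]
    rw [ac_add (by fun_prop) hT.cont, ac_mul]
    have := ac_cos m 1
    simp only [Nat.cast_one, one_mul] at this
    rw [this]; split_ifs <;> first | omega | rfl
  have hac1 : ac 1 κ = E := by rw [hac, h.ac_T_one hn]; simp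
  have hell : ∀ m, ell p N m * ac m κ = ac m (Nl b N κ) := by
    intro m
    by_cases hm : m = 1
    · rw [hm, hac1, h1]
    · rw [hac, if_neg hm, mul_zero, zero_add, h.ell_ac_T hn hm]
  have hW := h.W_EP hκ
  have hNl : ∀ m, ac m (Nl b N κ) = ac m (Ww b N κ) +
      (if m = 0 then 2 * (mean (fun s => exp (κ s)) - 1) else 0) - cos (m * b) * ac m κ := by
    intro m
    have e : Nl b N κ = fun t => (Ww b N κ t + (mean (fun s => exp (κ s)) - 1)) -
        (1 / 2 * κ (t + b) + 1 / 2 * κ (t + -b)) := by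
      ext t; unfold Nl; rw [← sub_eq_add_neg]; ring
    have cW := hW.cont
    rw [e, ac_sub (by fun_prop) (by fun_prop), ac_add (by fun_prop) (by fun_prop),
      ac_add (by fun_prop) (by fun_prop), ac_const, ac_mul, ac_mul, ac_shift hκ.toCP,
      ac_shift hκ.toCP, bs_even hκ.toEP, mul_neg, cos_neg]
    ring
  have hX : ∀ t, |Xx b N κ t| < N := by
    intro t
    have := (h.xi_le hκ t).trans h.rad.le
    rw [abs_div, abs_of_pos hN, div_le_iff₀ hN] at this
    linarith
  have hXp : ∀ t, 0 < N + Xx b N κ t := fun t => by linarith [(abs_lt.1 (hX t)).1]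
  have hXm : ∀ t, 0 < N - Xx b N κ t := fun t => by linarith [(abs_lt.1 (hX t)).2]
  set g : ℝ → ℝ := fun t => log (N + Xx b N κ t) - log (N - Xx b N κ t) with hg
  have hgd : ∀ t, HasDerivAt g (2 / N * Ww b N κ t) t := by
    intro t
    have := (((h.X_der hκ t).const_add N).log (hXp t).ne').sub
      (((h.X_der hκ t).const_sub N).log (hXm t).ne')
    refine this.congr_deriv ?_
    rw [← hb]
    unfold Ww
    have a1 := (hXp t).ne'
    have a2 := (hXm t).ne'
    have a3 : 1 - (Xx b N κ t / N) ^ 2 = (N + Xx b N κ t) * (N - Xx b N κ t) / N ^ 2 := by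
      field_simp; ring
    rw [a3]
    field_simp; ring
  have hgp : Function.Periodic g (2 * π) := fun t => by simp only [hg]; rw [h.X_per hκ]
  have hgc : Continuous g := continuous_iff_continuousAt.2 fun t => (hgd t).continuousAt
  have hgo : ∀ t, g (-t) = -g t := fun t => by
    simp only [hg]; rw [h.X_odd hκ, sub_neg_eq_add, ← sub_eq_add_neg]; ring
  have hbs : ∀ m : ℕ, 2 / N * ac m (Ww b N κ) = m * bs m g := fun m => by
    rw [← ac_mul]; exact ac_deriv hgp hgd (continuous_const.mul hW.cont) m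
  have hM : mean (fun s => exp (κ s)) = 1 := by
    have a1 := hell 0
    have a2 := hbs 0
    rw [hNl] at a1
    simp only [ell, Nat.cast_zero, mul_zero, zero_mul, sin_zero, cos_zero, if_true] at a1 a2
    have a3 : ac 0 (Ww b N κ) = 0 := (mul_eq_zero.1 a2).resolve_left (by positivity)
    linarith
  refine ⟨hac1, hM, fun t => ?_⟩
  have hDp : CP (fun t => κ (t + -b) - κ (t + b)) := by
    refine ⟨by fun_prop, fun t => ?_⟩
    rw [add_right_comm t, hκ.per, add_right_comm t, hκ.per]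
  have hF : CP (fun t => (κ (t + -b) - κ (t + b)) - g t) := ⟨hDp.cont.sub hgc, hDp.per.sub hgp⟩
  have := uniq hF (ac_odd hF fun t => ?_) (fun m => ?_) t
  · rw [← sub_eq_add_neg] at this
    exact sub_eq_zero.1 this
  · rw [hgo, show -t + -b = -(t + b) by ring, show -t + b = -(t + -b) by ring, hκ.even, hκ.even]
    ring
  · rcases Nat.eq_zero_or_pos m with rfl | hm
    · simp [bs]
    · rw [bs_sub hDp.cont hgc, bs_sub (by fun_prop) (by fun_prop), bs_shift hκ.toCP,
        bs_shift hκ.toCP, bs_even hκ.toEP, mul_neg, sin_neg]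
      have a1 := hell m
      have a2 := hbs m
      rw [hNl, if_neg (by omega)] at a1
      unfold ell at a1
      have hm' : (m : ℝ) ≠ 0 := by positivity
      apply mul_left_cancel₀ hm'
      rw [mul_sub, ← a2]
      field_simp
      linear_combination 2 * a1

theorem exists_data : ∃ (θ k u u' : ℝ → ℝ) (L c T : ℝ) (N : ℕ), Data θ k u u' L c T N := by
  obtain ⟨p, n, r, E, κ, h, hn, hE, hf, h1⟩ := exists_sol
  obtain ⟨hac1, hM, hD⟩ := h.solve hf h1
  set N : ℝ := ((8 * n : ℕ) : ℝ) with hNdef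
  set b := π / p with hb
  have hκ := hf.1
  have hN := h.Npos
  have hb0 : 0 < b := h.bpos
  have hb1 : b ≤ 1 / 30 := h.ble
  have hn' : (1 : ℝ) ≤ n := by exact_mod_cast hn
  have hN8 : N = 8 * n := by rw [hNdef]; push_cast; ring
  have hpi := pi_gt_three
  have ce : Continuous fun s => exp (κ s) := hκ.cont.rexp
  have pe : Function.Periodic (fun s => exp (κ s)) (2 * π) := fun t => by simp only [hκ.per t]
  set μ := mean (Zz b N κ) with hμ
  have hμ0 : 0 < μ := by
    refine mul_pos (inv_pos.2 two_pi_pos) ?_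
    exact intervalIntegral.intervalIntegral_pos_of_pos ((h.Z_EP hκ).cont.intervalIntegrable _ _)
      (h.Z_pos hκ) two_pi_pos
  set Θ : ℝ → ℝ := fun τ => N⁻¹ * ∫ s in (0:ℝ)..τ, exp (κ s) with hΘ
  have hΘd : ∀ τ, HasDerivAt Θ (N⁻¹ * exp (κ τ)) τ := fun τ =>
    (ce.integral_hasStrictDerivAt 0 τ).hasDerivAt.const_mul _
  have hΘp : ∀ τ, Θ (τ + 2 * π) = Θ τ + 2 * π / N := by
    intro τ
    simp only [hΘ]
    rw [pe.intervalIntegral_add_eq_add 0 τ (fun _ _ => ce.intervalIntegrable _ _), zero_add]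
    have : ∫ s in (0:ℝ)..2 * π, exp (κ s) = 2 * π := by
      unfold mean at hM
      rw [inv_mul_eq_one₀ two_pi_pos.ne'] at hM; exact hM.symm
    rw [this]; ring
  have hΘn : ∀ (j : ℕ) τ, Θ (τ + j * (2 * π)) = Θ τ + j * (2 * π / N) := by
    intro j τ
    induction j with
    | zero => simp
    | succ j ih => push_cast; rw [add_mul, one_mul, ← add_assoc, hΘp, ih]; ring
  set c0 := ((2 * n : ℕ) : ℝ) * (2 * π) - 2 * b with hc0
  have hsh : ∀ s, (s + μ * c0) / μ = (s / μ - b - b) + ((2 * n : ℕ) : ℝ) * (2 * π) := by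
    intro s; rw [hc0]; field_simp; ring
  have hδ : ∀ s, Θ ((s + μ * c0) / μ) - Θ (s / μ) = π / 2 - 2 * bet b N κ (s / μ - b) := by
    intro s
    rw [hsh, hΘn]
    unfold bet
    simp only [hΘ]
    rw [sub_add_cancel, ← intervalIntegral.integral_interval_sub_left (a := 0) (b := s / μ)
      (c := s / μ - b - b) (ce.intervalIntegrable _ _) (ce.intervalIntegrable _ _), hN8]
    generalize (∫ x in (0:ℝ)..s / μ, exp (κ x)) = I1
    generalize (∫ x in (0:ℝ)..s / μ - b - b, exp (κ x)) = I2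
    push_cast; field_simp; ring
  have hκ1 : ∀ s, κ ((s + μ * c0) / μ) = κ (s / μ - b - b) := fun s => by
    rw [hsh]; exact (hκ.per.nat_mul (2 * n)) _
  have hX : ∀ t, |Xx b N κ t| < N := by
    intro t
    have := (h.xi_le hκ t).trans h.rad.le
    rw [abs_div, abs_of_pos hN, div_le_iff₀ hN] at this
    linarith
  have hXp : ∀ t, 0 < N + Xx b N κ t := fun t => by linarith [(abs_lt.1 (hX t)).1]
  have hXm : ∀ t, 0 < N - Xx b N κ t := fun t => by linarith [(abs_lt.1 (hX t)).2]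
  have hE1 : ∀ t, (N + Xx b N κ t) * exp (κ (t + b)) = (N - Xx b N κ t) * exp (κ (t - b)) := by
    intro t
    have : κ (t - b) = κ (t + b) + (log (N + Xx b N κ t) - log (N - Xx b N κ t)) := by
      linarith [hD t]
    rw [this, exp_add, exp_sub, exp_log (hXp t), exp_log (hXm t)]
    have := (hXm t).ne'
    field_simp
  have hdiv : ∀ s, HasDerivAt (fun s : ℝ => s / μ) (1 / μ) s := fun s =>
    (hasDerivAt_id s).div_const μ
  have cY := (h.Y_EP hκ).cont
  have c1 := hκ.cont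
  refine ⟨fun s => Θ (s / μ), fun s => N⁻¹ * exp (κ (s / μ)) * (1 / μ),
    fun s => N + Xx b N κ (s / μ - b), fun s => Yy b N κ (s / μ - b) * (1 / μ), 2 * N, μ * c0,
    μ * (2 * π), 8 * n, by omega, by positivity, fun s => (hΘd _).comp s (hdiv s), by fun_prop,
    fun s => by positivity, fun s => ?_, fun s => ?_, by fun_prop, fun s => ?_, fun s => hXp _,
    fun s => by linarith [hXm (s / μ - b)], ?_, ?_, fun s => ?_, fun s => ?_, fun s => ?_, ?_⟩
  · rw [show (s + μ * (2 * π)) / μ = s / μ + 2 * π by field_simp, hΘp]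
  · exact ((h.X_der hκ _).comp s ((hdiv s).sub_const b)).const_add N
  · rw [show (s + μ * (2 * π)) / μ - b = s / μ - b + 2 * π by field_simp; ring, h.X_per hκ]
  · apply mul_pos hμ0; rw [hc0]; push_cast; nlinarith
  · have : c0 < ((8 * n : ℕ) : ℝ) * (2 * π) := by rw [hc0]; push_cast; nlinarith
    nlinarith
  · rw [hδ]; linarith [h.bet_pos hκ (s / μ - b)]
  · have := hE1 (s / μ - b)
    rw [sub_add_cancel] at this
    rw [hκ1]
    linear_combination (N⁻¹ * (1 / μ)) * this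
  · have a1 := hE1 (s / μ - b)
    have a2 := h.cos_bet hκ (s / μ - b)
    have a3 : 0 < Zz b N κ (s / μ - b) := h.Z_pos hκ (s / μ - b)
    rw [hδ, show (π / 2 - 2 * bet b N κ (s / μ - b)) / 2 =
      π / 2 - (π / 4 + bet b N κ (s / μ - b)) by ring, tan_pi_div_two_sub]
    have a4 : 1 + Yy b N κ (s / μ - b) * (1 / μ) = Zz b N κ (s / μ - b) * (1 / μ) := by
      unfold Yy; rw [← hμ]; field_simp; ring
    rw [a4]
    unfold Zz Zf at a3 ⊢
    rw [sub_add_cancel] at a1 a3 ⊢
    have a5 : tan (π / 4 + bet b N κ (s / μ - b)) ≠ 0 := by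
      intro h0; rw [h0, zero_mul] at a3; exact lt_irrefl _ a3
    rw [exp_neg, exp_neg]
    have a6 := exp_pos (κ (s / μ))
    have a7 := exp_pos (κ (s / μ - b - b))
    generalize tan (π / 4 + bet b N κ (s / μ - b)) = q at *
    generalize exp (κ (s / μ)) = e0 at *
    generalize exp (κ (s / μ - b - b)) = e1 at *
    generalize Xx b N κ (s / μ - b) = x at *
    field_simp
    linear_combination a1
  · by_contra hcon
    push Not at hcon
    have a1 : ∀ t, κ (t + -b) - κ (t + b) = 0 := by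
      intro t
      have := hcon (μ * (t + b))
      rw [hκ1, mul_div_cancel_left₀ _ hμ0.ne'] at this
      have a2 : exp (κ (t + b - b - b)) = exp (κ (t + b)) :=
        mul_left_cancel₀ (inv_pos.2 hN).ne' (mul_right_cancel₀ (by positivity) this)
      rw [exp_eq_exp, show t + b - b - b = t + -b by ring] at a2
      exact sub_eq_zero.2 a2
    have a2 : bs 1 (fun t => κ (t + -b) - κ (t + b)) = 0 := by simp [a1, bs]
    rw [bs_sub (by fun_prop) (by fun_prop), bs_shift hκ.toCP, bs_shift hκ.toCP, bs_even hκ.toEP,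
      hac1] at a2
    have a3 := mul_pos h.sinpos hE
    simp only [Nat.cast_one, one_mul, sin_neg, mul_zero] at a2
    linarith

theorem final : ∃ (Ω : Set ℂ) (z : ℝ → ℂ) (l : ℝ) (K : Set ℂ) (γ : ℝ → ℂ) (m c : ℝ),
    IsTable Ω z l ∧ (¬ ∃ (O : ℂ) (R : ℝ), range z = Metric.sphere O R) ∧ IsConvexCurve K γ m ∧
      IsCaustic Ω z K γ ∧ 0 < c ∧ c < m ∧ ConstantArc z γ c := by
  obtain ⟨θ, k, u, u', L, c, T, N, h⟩ := exists_data
  exact h.main

end Pool.Agent.H856Z.Cau
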