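import Pool.Agent.H856Z.Cau.Op
import Pool.Agent.H856Z.Cau.Lip

namespace Pool.Agent.H856Z.Cau

open Set Real MeasureTheory

noncomputable def mean (f : ℝ → ℝ) : ℝ := (2 * π)⁻¹ * ∫ t in (0:ℝ)..2 * π, f t

noncomputable def bet (b N : ℝ) (κ : ℝ → ℝ) (t : ℝ) : ℝ :=
  (2 * N)⁻¹ * ∫ s in (t - b)..(t + b), exp (κ s)

noncomputable def Zz (b N : ℝ) (κ : ℝ → ℝ) (t : ℝ) : ℝ := Zf (κ (t + b)) (κ (t - b)) (bet b N κ t)

noncomputable def Yy (b N : ℝ) (κ : ℝ → ℝ) (t : ℝ) : ℝ := Zz b N κ t - mean (Zz b N κ)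

noncomputable def Xx (b N : ℝ) (κ : ℝ → ℝ) (t : ℝ) : ℝ := ∫ s in (0:ℝ)..t, Yy b N κ s

noncomputable def Ww (b N : ℝ) (κ : ℝ → ℝ) (t : ℝ) : ℝ :=
  Yy b N κ t * (1 - (Xx b N κ t / N) ^ 2)⁻¹

noncomputable def Nl (b N : ℝ) (κ : ℝ → ℝ) (t : ℝ) : ℝ :=
  Ww b N κ t + mean (fun s => exp (κ s)) - 1 - (κ (t + b) + κ (t - b)) / 2

theorem mean_sub {f g : ℝ → ℝ} (hf : Continuous f) (hg : Continuous g) :
    mean (fun t => f t - g t) = mean f - mean g := by
  unfold mean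
  rw [intervalIntegral.integral_sub (hf.intervalIntegrable _ _) (hg.intervalIntegrable _ _), mul_sub]

theorem abs_mean_le {f : ℝ → ℝ} {B : ℝ} (hB : ∀ t, |f t| ≤ B) : |mean f| ≤ B := by
  unfold mean
  have h := intervalIntegral.norm_integral_le_of_norm_le_const (a := 0) (b := 2 * π) (C := B)
    (f := f) (fun x _ => hB x)
  rw [norm_eq_abs, sub_zero, abs_of_pos two_pi_pos] at h
  rw [abs_mul, abs_of_pos (inv_pos.2 two_pi_pos), inv_mul_le_iff₀ two_pi_pos]
  linarith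

theorem mean_lip {f g : ℝ → ℝ} (hf : Continuous f) (hg : Continuous g) {d : ℝ}
    (h : ∀ t, |f t - g t| ≤ d) : |mean f - mean g| ≤ d := by
  rw [← mean_sub hf hg]; exact abs_mean_le h

theorem mean_const (a : ℝ) : mean (fun _ => a) = a := by
  unfold mean
  have := pi_pos
  rw [intervalIntegral.integral_const, smul_eq_mul, sub_zero]; field_simp

theorem mean_shift {f : ℝ → ℝ} (hf : Function.Periodic f (2 * π)) (b : ℝ) :
    mean (fun t => f (t + b)) = mean f := by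
  unfold mean; rw [int_shift hf]

theorem mean_avg {f : ℝ → ℝ} (hf : CP f) (b : ℝ) :
    mean (fun t => (f (t + b) + f (t - b)) / 2) = mean f := by
  have h1 := mean_shift hf.per b
  have h2 := mean_shift hf.per (-b)
  have hc := hf.cont
  unfold mean at *
  rw [intervalIntegral.integral_div, intervalIntegral.integral_add
    ((by fun_prop : Continuous _).intervalIntegrable _ _)
    ((by fun_prop : Continuous _).intervalIntegrable _ _)]
  simp only [sub_eq_add_neg]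
  linarith

theorem ac_zero_mean (f : ℝ → ℝ) : ac 0 f = 2 * mean f := by
  unfold ac mean
  have := pi_pos
  simp only [Nat.cast_zero, zero_mul, cos_zero, mul_one]; field_simp

theorem bet_EP {κ : ℝ → ℝ} (hκ : EP κ) (b N : ℝ) : EP (bet b N κ) := by
  have hc : Continuous fun s => exp (κ s) := hκ.cont.rexp
  refine ⟨⟨?_, fun t => ?_⟩, fun t => ?_⟩
  · have : bet b N κ = fun t => (2 * N)⁻¹ * ((∫ s in (0:ℝ)..(t + b), exp (κ s)) -
        ∫ s in (0:ℝ)..(t - b), exp (κ s)) := by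
      ext t
      rw [intervalIntegral.integral_interval_sub_left (hc.intervalIntegrable _ _)
        (hc.intervalIntegrable _ _)]
      rfl
    rw [this]
    have h1 : Continuous fun t => ∫ s in (0:ℝ)..t, exp (κ s) :=
      intervalIntegral.continuous_primitive (fun _ _ => hc.intervalIntegrable _ _) 0
    exact continuous_const.mul ((h1.comp (by fun_prop)).sub (h1.comp (by fun_prop)))
  · unfold bet
    congr 1
    rw [show t + 2 * π - b = t - b + 2 * π by ring, show t + 2 * π + b = t + b + 2 * π by ring,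
      ← intervalIntegral.integral_comp_add_right (fun s => exp (κ s))]
    simp only [hκ.per _]
  · unfold bet
    congr 1
    rw [show -t - b = -(t + b) by ring, show -t + b = -(t - b) by ring,
      ← intervalIntegral.integral_comp_neg (fun s => exp (κ s))]
    simp only [hκ.even]

theorem Rad.exp_lip {r : ℝ} (hr : Rad r) {a c : ℝ} (ha : |a| ≤ r) (hc : |c| ≤ r) :
    |exp a - exp c| ≤ 2 * |a - c| := by
  have h1 := hr.F a c ha hc
  have h2 := abs_add_le (exp a - a - (exp c - c)) (a - c)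
  rw [show exp a - a - (exp c - c) + (a - c) = exp a - exp c by ring] at h2
  linarith [abs_nonneg (a - c)]

theorem Rad.exp_le {r : ℝ} (hr : Rad r) {a : ℝ} (ha : |a| ≤ r) : |exp a| ≤ 2 := by
  have h1 := hr.exp_lip ha (c := 0) (by simpa using hr.pos.le)
  rw [exp_zero, sub_zero] at h1
  rw [abs_of_pos (exp_pos a)]
  linarith [(abs_le.1 h1).2, hr.le]

/-- standing hypotheses -/
structure Hyp (p : ℕ) (N r : ℝ) : Prop extends Par p N where
  rad : Rad r
  br : π / p ≤ r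

/-- the ball in which the fixed point is sought -/
structure Ball (r : ℝ) (κ : ℝ → ℝ) : Prop extends EP κ where
  le : ∀ t, |κ t| ≤ r / 4

namespace Hyp

variable {p : ℕ} {N r : ℝ} (h : Hyp p N r)
include h

theorem ball_zero : Ball r (fun _ => 0) :=
  ⟨⟨⟨continuous_const, fun _ => rfl⟩, fun _ => rfl⟩, fun _ => by
    rw [abs_zero]; linarith [h.rad.pos]⟩

theorem le_r {κ : ℝ → ℝ} (hκ : Ball r κ) (t : ℝ) : |κ t| ≤ r := by
  linarith [hκ.le t, h.rad.pos]

theorem bet_le {κ : ℝ → ℝ} (hκ : Ball r κ) (t : ℝ) : |bet (π / p) N κ t| ≤ π / p := by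
  unfold bet
  have h1 := intervalIntegral.norm_integral_le_of_norm_le_const (a := t - π / p) (b := t + π / p)
    (C := 2) (f := fun s => exp (κ s)) (fun x _ => h.rad.exp_le (h.le_r hκ x))
  have hb := h.bpos
  have hN := h.Nge
  rw [norm_eq_abs, show t + π / p - (t - π / p) = 2 * (π / p) by ring,
    abs_of_pos (by linarith : 0 < 2 * (π / p))] at h1
  rw [abs_mul, abs_of_pos (by positivity), inv_mul_le_iff₀ (by positivity)]
  nlinarith

theorem bet_pos {κ : ℝ → ℝ} (hκ : Ball r κ) (t : ℝ) : 0 < bet (π / p) N κ t := by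
  unfold bet
  have hN := h.Npos
  refine mul_pos (by positivity) ?_
  exact intervalIntegral.intervalIntegral_pos_of_pos (hκ.cont.rexp.intervalIntegrable _ _)
    (fun x => exp_pos _) (by linarith [h.bpos])

theorem bet_lip {κ κ' : ℝ → ℝ} (hκ : Ball r κ) (hκ' : Ball r κ') {d : ℝ} (hd : ∀ t, |κ t - κ' t| ≤ d)
    (t : ℝ) : |bet (π / p) N κ t - bet (π / p) N κ' t| ≤ d / 200 := by
  unfold bet
  rw [← mul_sub, ← intervalIntegral.integral_sub (hκ.cont.rexp.intervalIntegrable _ _)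
    (hκ'.cont.rexp.intervalIntegrable _ _)]
  have h1 := intervalIntegral.norm_integral_le_of_norm_le_const (a := t - π / p) (b := t + π / p)
    (C := 2 * d) (f := fun s => exp (κ s) - exp (κ' s))
    (fun x _ => (h.rad.exp_lip (h.le_r hκ x) (h.le_r hκ' x)).trans (by linarith [hd x]))
  have hb := h.bpos
  have hb' := h.ble
  have hN := h.Nge
  have hd0 : 0 ≤ d := (abs_nonneg _).trans (hd 0)
  rw [norm_eq_abs, show t + π / p - (t - π / p) = 2 * (π / p) by ring,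
    abs_of_pos (by linarith : 0 < 2 * (π / p))] at h1
  rw [abs_mul, abs_of_pos (by positivity), inv_mul_le_iff₀ (by positivity)]
  nlinarith

theorem cos_bet {κ : ℝ → ℝ} (hκ : Ball r κ) (t : ℝ) : 0 < cos (π / 4 + bet (π / p) N κ t) := by
  have h1 := abs_le.1 (h.bet_le hκ t)
  apply cos_pos_of_mem_Ioo
  constructor <;> linarith [h.ble, pi_gt_three]

theorem Z_EP {κ : ℝ → ℝ} (hκ : Ball r κ) : EP (Zz (π / p) N κ) := by
  have hb := bet_EP hκ.toEP (π / p) N
  have hc := hκ.cont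
  refine ⟨⟨?_, fun t => ?_⟩, fun t => ?_⟩
  · unfold Zz Zf
    apply Continuous.mul
    · rw [continuous_iff_continuousAt]
      intro t
      exact ContinuousAt.comp (g := tan) (f := fun t => π / 4 + bet (π / p) N κ t)
        (continuousAt_tan.2 (h.cos_bet hκ t).ne') (continuous_const.add hb.cont).continuousAt
    · exact continuous_const.mul (Continuous.inv₀ (by fun_prop) fun t => by positivity)
  · unfold Zz
    rw [hb.per, show t + 2 * π + π / p = t + π / p + 2 * π by ring,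
      show t + 2 * π - π / p = t - π / p + 2 * π by ring, hκ.per, hκ.per]
  · unfold Zz
    rw [hb.even, show -t + π / p = -(t - π / p) by ring, show -t - π / p = -(t + π / p) by ring,
      hκ.even, hκ.even]
    unfold Zf; rw [add_comm (exp _)]

theorem Z_pos {κ : ℝ → ℝ} (hκ : Ball r κ) (t : ℝ) : 0 < Zz (π / p) N κ t := by
  have h1 := abs_le.1 (h.bet_le hκ t)
  unfold Zz Zf
  refine mul_pos (tan_pos_of_pos_of_lt_pi_div_two ?_ ?_) (by positivity) <;>
    linarith [h.ble, pi_gt_three]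

theorem H_lip {κ κ' : ℝ → ℝ} (hκ : Ball r κ) (hκ' : Ball r κ') {d : ℝ} (hd : ∀ t, |κ t - κ' t| ≤ d)
    (t : ℝ) : |(Zz (π / p) N κ t - (κ (t + π / p) + κ (t - π / p)) / 2) -
      (Zz (π / p) N κ' t - (κ' (t + π / p) + κ' (t - π / p)) / 2)| ≤ 3 * d / 200 := by
  have hd0 : 0 ≤ d := (abs_nonneg _).trans (hd 0)
  have h1 := h.bet_lip hκ hκ' hd t
  have h2 := h.rad.G _ _ _ _ _ _ d (h.le_r hκ (t + π / p)) (h.le_r hκ (t - π / p))
    ((h.bet_le hκ t).trans h.br) (h.le_r hκ' (t + π / p)) (h.le_r hκ' (t - π / p))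
    ((h.bet_le hκ' t).trans h.br) (hd _) (hd _) (by linarith)
  unfold Gf at h2
  unfold Zz
  rw [abs_le] at h1 h2 ⊢
  constructor <;> linarith [h1.1, h1.2, h2.1, h2.2]

theorem Y_EP {κ : ℝ → ℝ} (hκ : Ball r κ) : EP (Yy (π / p) N κ) := by
  have h1 := h.Z_EP hκ
  exact ⟨⟨h1.cont.sub continuous_const, fun t => by unfold Yy; rw [h1.per]⟩,
    fun t => by unfold Yy; rw [h1.even]⟩

theorem Y_lip {κ κ' : ℝ → ℝ} (hκ : Ball r κ) (hκ' : Ball r κ') {d : ℝ} (hd : ∀ t, |κ t - κ' t| ≤ d)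
    (t : ℝ) : |Yy (π / p) N κ t - Yy (π / p) N κ' t| ≤ 4 * d := by
  have hd0 : 0 ≤ d := (abs_nonneg _).trans (hd 0)
  have h1 : ∀ t, |Zz (π / p) N κ t - Zz (π / p) N κ' t| ≤ 2 * d := by
    intro t
    have h2 := abs_le.1 (h.H_lip hκ hκ' hd t)
    have h3 := abs_le.1 (hd (t + π / p))
    have h4 := abs_le.1 (hd (t - π / p))
    rw [abs_le]; constructor <;> linarith [h2.1, h2.2, h3.1, h3.2, h4.1, h4.2]
  have h2 := abs_le.1 (mean_lip (h.Z_EP hκ).cont (h.Z_EP hκ').cont h1)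
  have h3 := abs_le.1 (h1 t)
  unfold Yy
  rw [abs_le]; constructor <;> linarith [h2.1, h2.2, h3.1, h3.2]

omit h in
theorem Y_zero (b N t : ℝ) : Yy b N (fun _ => 0) t = 0 := by
  have : Zz b N (fun _ => 0) = fun _ => Zf 0 0 ((2 * N)⁻¹ * (2 * b)) := by
    ext t; unfold Zz bet; simp; ring_nf
  unfold Yy; rw [this, mean_const, sub_self]

omit h in
theorem X_zero (b N t : ℝ) : Xx b N (fun _ => 0) t = 0 := by
  unfold Xx; simp [Y_zero]

theorem X_der {κ : ℝ → ℝ} (hκ : Ball r κ) (t : ℝ) :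
    HasDerivAt (Xx (π / p) N κ) (Yy (π / p) N κ t) t :=
  ((h.Y_EP hκ).cont.integral_hasStrictDerivAt 0 t).hasDerivAt

theorem X_per {κ : ℝ → ℝ} (hκ : Ball r κ) : Function.Periodic (Xx (π / p) N κ) (2 * π) := by
  intro t
  have h1 := h.Y_EP hκ
  unfold Xx
  rw [h1.per.intervalIntegral_add_eq_add 0 t (fun _ _ => h1.cont.intervalIntegrable _ _), zero_add]
  have : ∫ x in (0:ℝ)..2 * π, Yy (π / p) N κ x = 0 := by
    unfold Yy
    rw [intervalIntegral.integral_sub ((h.Z_EP hκ).cont.intervalIntegrable _ _)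
      (continuous_const.intervalIntegrable _ _), intervalIntegral.integral_const, mean]
    have := pi_pos
    simp only [smul_eq_mul, sub_zero]; field_simp; ring
  rw [this, add_zero]

theorem X_odd {κ : ℝ → ℝ} (hκ : Ball r κ) (t : ℝ) : Xx (π / p) N κ (-t) = -Xx (π / p) N κ t := by
  unfold Xx
  have := intervalIntegral.integral_comp_neg (a := t) (b := 0) (Yy (π / p) N κ)
  simp only [(h.Y_EP hκ).even, neg_zero] at this
  rw [← this, intervalIntegral.integral_symm]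

theorem X_cont {κ : ℝ → ℝ} (hκ : Ball r κ) : Continuous (Xx (π / p) N κ) :=
  continuous_iff_continuousAt.2 fun t => (h.X_der hκ t).continuousAt

theorem X_lip {κ κ' : ℝ → ℝ} (hκ : Ball r κ) (hκ' : Ball r κ') {d : ℝ} (hd : ∀ t, |κ t - κ' t| ≤ d)
    (t : ℝ) : |Xx (π / p) N κ t - Xx (π / p) N κ' t| ≤ 26 * d := by
  have hd0 : 0 ≤ d := (abs_nonneg _).trans (hd 0)
  obtain ⟨y, hy, hy'⟩ := ((h.X_per hκ).sub (h.X_per hκ')).exists_mem_Ico₀ two_pi_pos t
  simp only [Pi.sub_apply] at hy'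
  rw [hy']
  unfold Xx
  rw [← intervalIntegral.integral_sub ((h.Y_EP hκ).cont.intervalIntegrable _ _)
    ((h.Y_EP hκ').cont.intervalIntegrable _ _)]
  have h1 := intervalIntegral.norm_integral_le_of_norm_le_const (a := 0) (b := y)
    (C := 4 * d) (f := fun s => Yy (π / p) N κ s - Yy (π / p) N κ' s)
    (fun x _ => h.Y_lip hκ hκ' hd x)
  rw [norm_eq_abs, sub_zero, abs_of_nonneg hy.1] at h1
  nlinarith [hy.2, pi_lt_d2]

theorem xi_lip {κ κ' : ℝ → ℝ} (hκ : Ball r κ) (hκ' : Ball r κ') {d : ℝ} (hd : ∀ t, |κ t - κ' t| ≤ d)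
    (t : ℝ) : |Xx (π / p) N κ t / N - Xx (π / p) N κ' t / N| ≤ 26 * d * N⁻¹ := by
  rw [← sub_div, abs_div, abs_of_pos h.Npos, div_eq_mul_inv]
  exact mul_le_mul_of_nonneg_right (h.X_lip hκ hκ' hd t) (inv_pos.2 h.Npos).le

theorem Ninv_le : N⁻¹ ≤ 1 / 15 := by linarith [h.Ninv, h.ble]

theorem Y_le {κ : ℝ → ℝ} (hκ : Ball r κ) (t : ℝ) : |Yy (π / p) N κ t| ≤ r := by
  have := h.Y_lip hκ h.ball_zero (d := r / 4) (fun t => by simpa using hκ.le t) t
  rw [Y_zero, sub_zero] at this; linarith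

theorem xi_le' {κ : ℝ → ℝ} (hκ : Ball r κ) (t : ℝ) : |Xx (π / p) N κ t / N| ≤ 26 * (r / 4) * N⁻¹ := by
  have := h.xi_lip hκ h.ball_zero (d := r / 4) (fun t => by simpa using hκ.le t) t
  rwa [X_zero, zero_div, sub_zero] at this

theorem xi_le {κ : ℝ → ℝ} (hκ : Ball r κ) (t : ℝ) : |Xx (π / p) N κ t / N| ≤ r := by
  have := h.xi_le' hκ t
  nlinarith [h.Ninv_le, h.rad.pos]

theorem den_pos {κ : ℝ → ℝ} (hκ : Ball r κ) (t : ℝ) : 0 < 1 - (Xx (π / p) N κ t / N) ^ 2 := by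
  have h1 := abs_le.1 ((h.xi_le hκ t).trans h.rad.le)
  nlinarith [h1.1, h1.2]

theorem W_EP {κ : ℝ → ℝ} (hκ : Ball r κ) : EP (Ww (π / p) N κ) := by
  have h1 := h.Y_EP hκ
  have h2 := h.X_cont hκ
  refine ⟨⟨?_, fun t => ?_⟩, fun t => ?_⟩
  · exact h1.cont.mul (Continuous.inv₀ (by fun_prop) fun t => (h.den_pos hκ t).ne')
  · unfold Ww; rw [h1.per, h.X_per hκ]
  · unfold Ww; rw [h1.even, h.X_odd hκ, neg_div, neg_sq]

theorem Nl_EP {κ : ℝ → ℝ} (hκ : Ball r κ) : EP (Nl (π / p) N κ) := by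
  have h1 := h.W_EP hκ
  have h2 := h1.cont
  have h3 := hκ.cont
  refine ⟨⟨?_, fun t => ?_⟩, fun t => ?_⟩
  · unfold Nl; fun_prop
  · unfold Nl
    rw [h1.per, show t + 2 * π + π / p = t + π / p + 2 * π by ring,
      show t + 2 * π - π / p = t - π / p + 2 * π by ring, hκ.per, hκ.per]
  · unfold Nl
    rw [h1.even, show -t + π / p = -(t - π / p) by ring, show -t - π / p = -(t + π / p) by ring,
      hκ.even, hκ.even, add_comm (κ _)]

theorem Nl_eq {κ : ℝ → ℝ} (hκ : Ball r κ) (t : ℝ) : Nl (π / p) N κ t =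
    Vf (Yy (π / p) N κ t) (Xx (π / p) N κ t / N) +
      (Zz (π / p) N κ t - (κ (t + π / p) + κ (t - π / p)) / 2) -
      mean (fun t => Zz (π / p) N κ t - (κ (t + π / p) + κ (t - π / p)) / 2) +
      mean (fun t => exp (κ t) - κ t) - 1 := by
  have h3 := hκ.cont
  rw [mean_sub (h.Z_EP hκ).cont (by fun_prop), mean_avg hκ.toCP, mean_sub h3.rexp h3]
  unfold Nl Vf Ww Yy
  ring

theorem Nl_lip {κ κ' : ℝ → ℝ} (hκ : Ball r κ) (hκ' : Ball r κ') {d : ℝ} (hd : ∀ t, |κ t - κ' t| ≤ d)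
    (t : ℝ) : |Nl (π / p) N κ t - Nl (π / p) N κ' t| ≤ d / 14 := by
  have hd0 : 0 ≤ d := (abs_nonneg _).trans (hd 0)
  have c1 := hκ.cont
  have c2 := hκ'.cont
  have c3 := (h.Z_EP hκ).cont
  have c4 := (h.Z_EP hκ').cont
  rw [h.Nl_eq hκ, h.Nl_eq hκ']
  have h1 := abs_le.1 (h.rad.V _ _ _ _ (4 * d) (h.Y_le hκ t) (h.xi_le hκ t) (h.Y_le hκ' t)
    (h.xi_le hκ' t) (h.Y_lip hκ hκ' hd t)
    ((h.xi_lip hκ hκ' hd t).trans (by nlinarith [h.Ninv_le])))
  have h2 := abs_le.1 (h.H_lip hκ hκ' hd t)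
  have h3 := abs_le.1 (mean_lip (by fun_prop) (by fun_prop) (h.H_lip hκ hκ' hd))
  have h4 := abs_le.1 (mean_lip (f := fun t => exp (κ t) - κ t) (g := fun t => exp (κ' t) - κ' t)
    (by fun_prop) (by fun_prop) (d := d / 200)
    (fun t => (h.rad.F _ _ (h.le_r hκ t) (h.le_r hκ' t)).trans (by linarith [hd t])))
  rw [abs_le]
  constructor <;> linarith [h1.1, h1.2, h2.1, h2.2, h3.1, h3.2, h4.1, h4.2]

omit h in
theorem Nl_zero (b N t : ℝ) : Nl b N (fun _ => 0) t = 0 := by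
  unfold Nl Ww
  rw [Y_zero]; simp [mean_const]

theorem Nl_le {κ : ℝ → ℝ} (hκ : Ball r κ) {d : ℝ} (hd : ∀ t, |κ t| ≤ d) (t : ℝ) :
    |Nl (π / p) N κ t| ≤ d / 14 := by
  have := h.Nl_lip hκ h.ball_zero (d := d) (fun t => by simpa using hd t) t
  rwa [Nl_zero, sub_zero] at this

theorem Nl_near {κ : ℝ → ℝ} (hκ : Ball r κ) {D : ℝ}
    (hD : ∀ t, |κ (t - π / p) - κ (t + π / p)| ≤ D) (t : ℝ) :
    |Nl (π / p) N κ t - (exp ((κ (t + π / p) + κ (t - π / p)) / 2) - 1 -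
      (κ (t + π / p) + κ (t - π / p)) / 2)| ≤ 3 * D + 7 * (π / p) := by
  have hD0 : 0 ≤ D := (abs_nonneg _).trans (hD 0)
  have hb := h.bpos
  have c1 := hκ.cont
  have hm : ∀ t, |(κ (t + π / p) + κ (t - π / p)) / 2| ≤ r := by
    intro t
    have a1 := abs_le.1 (h.le_r hκ (t + π / p))
    have a2 := abs_le.1 (h.le_r hκ (t - π / p))
    rw [abs_le]; constructor <;> linarith [a1.1, a1.2, a2.1, a2.2]
  have hZ : ∀ t, |Zz (π / p) N κ t - exp ((κ (t + π / p) + κ (t - π / p)) / 2)| ≤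
      D + 3 * (π / p) := by
    intro t
    have a0 := abs_le.1 (hD t)
    have a1 := h.bet_le hκ t
    have a2 := h.rad.G _ _ _ _ _ 0 (D + π / p) (h.le_r hκ (t + π / p)) (h.le_r hκ (t - π / p))
      (a1.trans h.br) (hm t) (hm t) (by simpa using h.rad.pos.le)
      (by rw [abs_le]; constructor <;> linarith [a0.1, a0.2])
      (by rw [abs_le]; constructor <;> linarith [a0.1, a0.2]) (by rw [sub_zero]; linarith)
    have a3 : ∀ m : ℝ, Gf m m 0 = exp m - m := by
      intro m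
      unfold Gf Zf
      rw [add_zero, tan_pi_div_four, exp_neg]
      have := exp_pos m
      field_simp; ring
    rw [a3] at a2
    unfold Gf at a2
    unfold Zz
    rw [abs_le] at a1 a2 ⊢
    constructor <;> linarith [a1.1, a1.2, a2.1, a2.2]
  have hM : |mean (fun s => exp (κ s)) - mean (Zz (π / p) N κ)| ≤ 2 * D + 3 * (π / p) := by
    rw [← mean_shift (f := fun s => exp (κ s)) (fun t => by simp only [hκ.per t]) (π / p)]
    apply mean_lip (by fun_prop) (h.Z_EP hκ).cont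
    intro t
    have a0 := abs_le.1 (hD t)
    have a1 := abs_le.1 (hZ t)
    have a2 := h.rad.exp_lip (h.le_r hκ (t + π / p)) (hm t)
    have a3 : |κ (t + π / p) - (κ (t + π / p) + κ (t - π / p)) / 2| ≤ D / 2 := by
      rw [abs_le]; constructor <;> linarith [a0.1, a0.2]
    have a4 := abs_le.1 (a2.trans (by linarith : _ ≤ D))
    rw [abs_le]; constructor <;> linarith [a1.1, a1.2, a4.1, a4.2]
  have hV : |Vf (Yy (π / p) N κ t) (Xx (π / p) N κ t / N)| ≤ π / p := by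
    have a1 := h.rad.V _ _ _ 0 (|Xx (π / p) N κ t / N|) (h.Y_le hκ t) (h.xi_le hκ t) (h.Y_le hκ t)
      (by simpa using h.rad.pos.le) (by simp) (by simp)
    have a2 : ∀ y, Vf y 0 = 0 := fun y => by simp [Vf]
    rw [a2, sub_zero] at a1
    have a3 := h.xi_le' hκ t
    have a4 := mul_le_mul h.rad.le h.Ninv (inv_pos.2 h.Npos).le (by norm_num)
    nlinarith
  have e : Nl (π / p) N κ t - (exp ((κ (t + π / p) + κ (t - π / p)) / 2) - 1 -
      (κ (t + π / p) + κ (t - π / p)) / 2) = Vf (Yy (π / p) N κ t) (Xx (π / p) N κ t / N) +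
      (Zz (π / p) N κ t - exp ((κ (t + π / p) + κ (t - π / p)) / 2)) +
      (mean (fun s => exp (κ s)) - mean (Zz (π / p) N κ)) := by
    unfold Nl Vf Ww Yy; ring
  rw [e]
  have a1 := abs_le.1 (hZ t)
  rw [abs_le] at hM hV ⊢
  constructor <;> linarith [a1.1, a1.2, hM.1, hM.2, hV.1, hV.2]

end Hyp

end Pool.Agent.H856Z.Cau
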