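import Pool.Agent.H856Z.Cau.Four

namespace Pool.Agent.H856Z.Cau

open Set Real MeasureTheory

/-- symbol of the linearised operator -/
noncomputable def ell (p : ℕ) (N : ℝ) (m : ℕ) : ℝ := N * m * sin (m * (π / p)) - cos (m * (π / p))

/-- inverse symbol off the special modes -/
noncomputable def wt (p : ℕ) (N : ℝ) (m : ℕ) : ℝ := if m < 2 ∨ p ∣ m then 0 else (ell p N m)⁻¹

/-- averaging part -/
noncomputable def Pav (p : ℕ) (f : ℝ → ℝ) (t : ℝ) : ℝ :=
  (p : ℝ)⁻¹ * ∑ i ∈ Finset.range p, f (t + (2 * i + 1) * (π / p))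

/-- the partial inverse -/
noncomputable def Tinv (p : ℕ) (N : ℝ) (f : ℝ → ℝ) (t : ℝ) : ℝ :=
  cser (fun m => wt p N m * ac m f) t - Pav p f t

structure Par (p : ℕ) (N : ℝ) : Prop where
  hp : 100 ≤ p
  lo : 9 / 10 ≤ N * sin (π / p)
  hi : N * sin (π / p) ≤ 1

namespace Par

variable {p : ℕ} {N : ℝ} (h : Par p N)
include h

theorem ppos : (0 : ℝ) < p := by have := h.hp; positivity

theorem bpos : 0 < π / p := div_pos pi_pos h.ppos

theorem ble : π / p ≤ 1 / 30 := by
  have : (100 : ℝ) ≤ p := by exact_mod_cast h.hp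
  rw [div_le_iff₀ h.ppos]; nlinarith [pi_lt_d2]

theorem sinpos : 0 < sin (π / p) :=
  sin_pos_of_pos_of_lt_pi h.bpos (by linarith [h.ble, pi_gt_three])

theorem Npos : 0 < N := by
  by_contra h1
  have := mul_nonpos_of_nonpos_of_nonneg (not_lt.1 h1) h.sinpos.le
  linarith [h.lo]

theorem Ninv : N⁻¹ ≤ 2 * (π / p) := by
  have h1 : sin (π / p) ≤ π / p := sin_le h.bpos.le
  have h2 := mul_le_mul_of_nonneg_left h1 h.Npos.le
  rw [inv_le_iff_one_le_mul₀' h.Npos]
  linarith [h.lo]

theorem Nge : 15 ≤ N := by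
  have h1 := h.Ninv
  have h2 := h.ble
  have h3 : N⁻¹ ≤ 1 / 15 := by linarith
  rw [inv_le_comm₀ h.Npos (by norm_num)] at h3
  simpa using h3

theorem sin_lb {m : ℕ} (hm : ¬ p ∣ m) : sin (π / p) ≤ |sin (m * (π / p))| := by
  have hp0 : 0 < p := by have := h.hp; omega
  have hr0 : 1 ≤ m % p := Nat.one_le_iff_ne_zero.2 fun h0 => hm (Nat.dvd_of_mod_eq_zero h0)
  have hr1 : m % p < p := Nat.mod_lt _ hp0
  have e : (m : ℝ) * (π / p) = (m % p : ℕ) * (π / p) + (m / p : ℕ) * π := by
    have : (m : ℝ) = (m % p : ℕ) + p * (m / p : ℕ) := by exact_mod_cast (Nat.mod_add_div m p).symm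
    have := h.ppos
    conv_lhs => rw [‹(m : ℝ) = _›]
    field_simp
  rw [e, sin_add_nat_mul_pi, abs_mul, abs_pow, abs_neg, abs_one, one_pow, one_mul]
  refine le_trans ?_ (le_abs_self _)
  set r := m % p
  have b := h.bpos
  have r0 : (1 : ℝ) ≤ r := by exact_mod_cast hr0
  have r1 : (r : ℝ) + 1 ≤ p := by exact_mod_cast hr1
  have e2 : (p : ℝ) * (π / p) = π := by have := h.ppos; field_simp
  rcases le_total ((r : ℝ) * (π / p)) (π / 2) with h1 | h1
  · exact sin_le_sin_of_le_of_le_pi_div_two (by linarith [pi_pos]) h1 (by nlinarith)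
  · rw [← sin_pi_sub ((r : ℝ) * (π / p))]
    exact sin_le_sin_of_le_of_le_pi_div_two (by linarith [pi_pos]) (by linarith) (by nlinarith)

theorem cos_lb : 99 / 100 ≤ cos (π / p) := by
  have := one_sub_sq_div_two_le_cos (x := π / p)
  nlinarith [h.ble, h.bpos]

theorem ell_two : 5 / 2 ≤ ell p N 2 := by
  unfold ell
  push_cast
  rw [sin_two_mul]
  have := cos_le_one (2 * (π / p))
  nlinarith [h.lo, h.cos_lb]

theorem ell_lb {m : ℕ} (h2 : 2 ≤ m) (hm : ¬ p ∣ m) : (m : ℝ) / 2 ≤ |ell p N m| := by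
  rcases eq_or_lt_of_le h2 with rfl | h3
  · have := h.ell_two
    rw [abs_of_pos (by linarith)]; push_cast; linarith
  · have m3 : (3 : ℝ) ≤ m := by exact_mod_cast h3
    unfold ell
    have h4 := abs_sub_abs_le_abs_sub (N * m * sin (m * (π / p))) (cos (m * (π / p)))
    have h5 := abs_cos_le_one (m * (π / p))
    rw [abs_mul, abs_of_pos (mul_pos h.Npos (by linarith))] at h4
    have h6 := mul_le_mul_of_nonneg_left (h.sin_lb hm) (mul_pos h.Npos (by linarith : (0:ℝ) < m)).le
    nlinarith [h.lo]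

theorem wt_le (m : ℕ) : |wt p N m| ≤ 2 * (1 / m) := by
  unfold wt
  split_ifs with hc
  · simp
  · rw [not_or, not_lt] at hc
    have h1 := h.ell_lb hc.1 hc.2
    have m2 : (2 : ℝ) ≤ m := by exact_mod_cast hc.1
    rw [abs_inv, inv_le_comm₀ (by linarith) (by positivity)]
    rw [show (2 * (1 / (m : ℝ)))⁻¹ = m / 2 by field_simp]; exact h1

theorem wtD_le (m : ℕ) : |2 * sin (m * (π / p)) * wt p N m| ≤ 4 * N⁻¹ * (1 / m) := by
  have hN := h.Npos
  unfold wt
  split_ifs with hc
  · simp; positivity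
  · rw [not_or, not_lt] at hc
    have h1 := h.ell_lb hc.1 hc.2
    have m2 : (2 : ℝ) ≤ m := by exact_mod_cast hc.1
    have h2 : N * m * |sin (m * (π / p))| ≤ 2 * |ell p N m| := by
      have : N * m * sin (m * (π / p)) = ell p N m + cos (m * (π / p)) := by unfold ell; ring
      have h3 := abs_add_le (ell p N m) (cos (m * (π / p)))
      rw [← this, abs_mul, abs_of_pos (by positivity)] at h3
      linarith [abs_cos_le_one (m * (π / p))]
    have hl : 0 < |ell p N m| := by linarith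
    rw [abs_mul, abs_mul, abs_two, abs_inv, ← div_eq_mul_inv, div_le_iff₀ hl]
    have : 4 * N⁻¹ * (1 / (m : ℝ)) * |ell p N m| = 2 * (2 * |ell p N m|) / (N * m) := by field_simp; ring
    rw [this, le_div_iff₀ (by positivity)]
    linarith

theorem summ {f : ℝ → ℝ} (hf : CP f) : Summable fun m => |wt p N m * ac m f| := by
  obtain ⟨B, hB⟩ := hf.bdd
  exact cs_summable hf.cont hB (by norm_num) h.wt_le

theorem Pav_le {f : ℝ → ℝ} {B : ℝ} (hB : ∀ t, |f t| ≤ B) (t : ℝ) : |Pav p f t| ≤ B := by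
  unfold Pav
  rw [abs_mul, abs_of_pos (inv_pos.2 h.ppos), inv_mul_le_iff₀ h.ppos]
  refine (Finset.abs_sum_le_sum_abs _ _).trans ?_
  refine (Finset.sum_le_sum fun i _ => hB _).trans ?_
  simp

theorem T_le {f : ℝ → ℝ} (hf : Continuous f) {B : ℝ} (hB : ∀ t, |f t| ≤ B) (t : ℝ) :
    |Tinv p N f t| ≤ 7 * B := by
  unfold Tinv cser
  have h1 := cs_tsum hf hB (by norm_num) h.wt_le (g := fun m => cos (m * t))
    (fun m => abs_cos_le_one _)
  have h2 := h.Pav_le hB t
  exact (abs_sub _ _).trans (by linarith)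

theorem T_sub {f g : ℝ → ℝ} (hf : CP f) (hg : CP g) (t : ℝ) :
    Tinv p N (fun t => f t - g t) t = Tinv p N f t - Tinv p N g t := by
  unfold Tinv cser Pav
  simp only [ac_sub hf.cont hg.cont, mul_sub, sub_mul, Finset.sum_sub_distrib]
  rw [(cser_summable (h.summ hf) t).tsum_sub (cser_summable (h.summ hg) t)]
  ring

theorem Pav_shift {f : ℝ → ℝ} (hf : CP f) (t : ℝ) : Pav p f (t - π / p) = Pav p f (t + π / p) := by
  unfold Pav
  congr 1
  have h1 := Finset.sum_range_succ (fun i : ℕ => f (t + (2 * i) * (π / p))) p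
  have h2 := Finset.sum_range_succ' (fun i : ℕ => f (t + (2 * i) * (π / p))) p
  have e2 : (2 * (p : ℝ)) * (π / p) = 2 * π := by have := h.ppos; field_simp
  rw [e2, hf.per] at h1
  simp only [Nat.cast_zero, mul_zero, zero_mul, add_zero] at h2
  have h3 : ∑ i ∈ Finset.range p, f (t + (2 * i) * (π / p)) =
      ∑ i ∈ Finset.range p, f (t + (2 * ((i + 1 : ℕ) : ℝ)) * (π / p)) := by linarith
  convert h3 using 2 with i _ i _
  · congr 1; ring
  · congr 1; push_cast; ring

theorem Pav_EP {f : ℝ → ℝ} (hf : EP f) : EP (Pav p f) := by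
  have hc := hf.cont
  refine ⟨⟨?_, fun t => ?_⟩, fun t => ?_⟩
  · unfold Pav; fun_prop
  · unfold Pav; congr 1
    apply Finset.sum_congr rfl; intro i _
    rw [add_right_comm, hf.per]
  · unfold Pav; congr 1
    rw [← Finset.sum_range_reflect]
    apply Finset.sum_congr rfl; intro i hi
    have hi' : i < p := Finset.mem_range.1 hi
    rw [← hf.even, ← hf.per]
    congr 1
    rw [Nat.cast_sub (by omega), Nat.cast_sub (by omega)]
    have := h.ppos
    field_simp; push_cast; ring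

theorem T_EP {f : ℝ → ℝ} (hf : EP f) : EP (Tinv p N f) := by
  have h1 := cser_EP (h.summ hf.toCP)
  have h2 := h.Pav_EP hf
  refine ⟨⟨h1.cont.sub h2.cont, h1.per.sub h2.per⟩, fun t => ?_⟩
  unfold Tinv; rw [h1.even, h2.even]

theorem DT_le {f : ℝ → ℝ} (hf : CP f) {B : ℝ} (hB : ∀ t, |f t| ≤ B) (t : ℝ) :
    |Tinv p N f (t - π / p) - Tinv p N f (t + π / p)| ≤ 12 * N⁻¹ * B := by
  unfold Tinv cser
  rw [h.Pav_shift hf, sub_sub_sub_cancel_right,
    ← (cser_summable (h.summ hf) _).tsum_sub (cser_summable (h.summ hf) _)]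
  have h1 := cs_tsum hf.cont hB (by have := h.Npos; positivity) h.wtD_le (g := fun m => sin (m * t))
    (fun m => abs_sin_le_one _)
  convert h1 using 2
  · congr 1; ext m
    rw [mul_sub (m : ℝ), mul_add (m : ℝ), cos_sub, cos_add]; ring
  · ring

theorem ac_Pav {f : ℝ → ℝ} (hf : EP f) (m : ℕ) :
    ac m (Pav p f) = if p ∣ m then cos (m * (π / p)) * ac m f else 0 := by
  have hc := hf.cont
  have h1 : ∀ s : Finset ℕ, ac m (fun t => ∑ i ∈ s, f (t + (2 * i + 1) * (π / p))) =
      ∑ i ∈ s, cos (m * ((2 * i + 1) * (π / p))) * ac m f := by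
    intro s
    induction s using Finset.induction_on with
    | empty => simpa using ac_const 0 m
    | insert a s ha ih =>
      simp only [Finset.sum_insert ha]
      rw [ac_add (by fun_prop) (by fun_prop), ih, ac_shift hf.toCP, bs_even hf]; ring
  have h2 : ac m (Pav p f) = (p : ℝ)⁻¹ * ∑ i ∈ Finset.range p,
      cos (m * ((2 * i + 1) * (π / p))) * ac m f := by
    rw [← h1, ← ac_mul]; rfl
  rw [h2, ← Finset.sum_mul]
  have hp := h.ppos
  split_ifs with hm
  · obtain ⟨k, rfl⟩ := hm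
    have : ∀ i ∈ Finset.range p, cos (((p * k : ℕ) : ℝ) * ((2 * i + 1) * (π / p))) =
        cos (((p * k : ℕ) : ℝ) * (π / p)) := by
      intro i _
      rw [← cos_add_nat_mul_two_pi (((p * k : ℕ) : ℝ) * (π / p)) (k * i)]
      congr 1; push_cast; field_simp; ring
    rw [Finset.sum_congr rfl this]; simp; field_simp
  · have hs : sin (m * (π / p)) ≠ 0 := by
      intro h0; have := h.sin_lb hm; rw [h0, abs_zero] at this; linarith [h.sinpos]
    have h3 : 2 * sin (m * (π / p)) * ∑ i ∈ Finset.range p, cos (m * ((2 * i + 1) * (π / p))) = 0 := by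
      rw [Finset.mul_sum]
      have : ∀ i ∈ Finset.range p, 2 * sin (m * (π / p)) * cos (m * ((2 * i + 1) * (π / p))) =
          sin (m * (2 * ((i + 1 : ℕ) : ℝ) * (π / p))) - sin (m * (2 * (i : ℝ) * (π / p))) := by
        intro i _
        have e1 : (m : ℝ) * (2 * ((i + 1 : ℕ) : ℝ) * (π / p)) =
            m * ((2 * i + 1) * (π / p)) + m * (π / p) := by push_cast; ring
        have e2 : (m : ℝ) * (2 * (i : ℝ) * (π / p)) =
            m * ((2 * i + 1) * (π / p)) - m * (π / p) := by ring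
        rw [e1, e2, sin_add, sin_sub]; ring
      rw [Finset.sum_congr rfl this,
        Finset.sum_range_sub (fun i : ℕ => sin (m * (2 * (i : ℝ) * (π / p))))]
      have e3 : (m : ℝ) * (2 * (p : ℝ) * (π / p)) = 0 + m * (2 * π) := by field_simp; ring
      rw [e3, sin_add_nat_mul_two_pi]; simp
    have h4 := (mul_eq_zero.1 h3).resolve_left (mul_ne_zero two_ne_zero hs)
    rw [h4]; simp

theorem ac_T {f : ℝ → ℝ} (hf : EP f) (m : ℕ) :
    ac m (Tinv p N f) = wt p N m * ac m f - if p ∣ m then cos (m * (π / p)) * ac m f else 0 := by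
  have h1 := cser_EP (h.summ hf.toCP)
  have h2 := h.Pav_EP hf
  have := ac_sub h1.cont h2.cont m
  rw [ac_cser (h.summ hf.toCP) (by simp [wt]), h.ac_Pav hf] at this
  exact this

theorem ac_T_one {f : ℝ → ℝ} (hf : EP f) : ac 1 (Tinv p N f) = 0 := by
  have : ¬ p ∣ 1 := by have := h.hp; intro h1; have := Nat.le_of_dvd one_pos h1; omega
  rw [h.ac_T hf, if_neg this]; simp [wt]

theorem ell_ac_T {f : ℝ → ℝ} (hf : EP f) {m : ℕ} (hm : m ≠ 1) :
    ell p N m * ac m (Tinv p N f) = ac m f := by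
  rw [h.ac_T hf]
  by_cases hd : p ∣ m
  · rw [if_pos hd, wt, if_pos (Or.inr hd)]
    obtain ⟨k, rfl⟩ := hd
    have hp := h.ppos
    have e : ((p * k : ℕ) : ℝ) * (π / p) = k * π := by push_cast; field_simp
    have hs : sin (((p * k : ℕ) : ℝ) * (π / p)) = 0 := by rw [e, sin_nat_mul_pi]
    have hc := sin_sq_add_cos_sq (((p * k : ℕ) : ℝ) * (π / p))
    unfold ell
    rw [hs] at hc ⊢
    linear_combination (ac (p * k) f) * hc
  · have h2 : 2 ≤ m := by
      rcases m with _ | _ | m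
      · exact absurd (dvd_zero p) hd
      · exact absurd rfl hm
      · omega
    rw [if_neg hd, wt, if_neg (by rw [not_or, not_lt]; exact ⟨h2, hd⟩)]
    have h1 := h.ell_lb h2 hd
    have m2 : (2 : ℝ) ≤ m := by exact_mod_cast h2
    have : ell p N m ≠ 0 := by intro h0; rw [h0, abs_zero] at h1; linarith
    field_simp; ring

theorem T_trig (a b t : ℝ) :
    Tinv p N (fun t => a + b * cos (2 * t)) t = -a + b * (ell p N 2)⁻¹ * cos (2 * t) := by
  have ep : ∀ a b : ℝ, EP (fun t => a + b * cos (2 * t)) := by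
    intro a b
    refine ⟨⟨by fun_prop, fun t => ?_⟩, fun t => by simp⟩
    rw [mul_add, show 2 * (2 * π) = (2 : ℕ) * (2 * π) by norm_num, cos_add_nat_mul_two_pi]
  have hac : ∀ (a b : ℝ) (m : ℕ), ac m (fun t => a + b * cos (2 * t)) =
      (if m = 0 then 2 * a else 0) + b * (if m = 2 then 1 else 0) := by
    intro a b m
    rw [ac_add (by fun_prop) (by fun_prop), ac_const, ac_mul]
    have := ac_cos m 2
    push_cast at this
    rw [this]; split_ifs <;> first | omega | rfl
  have h1 := h.T_EP (ep a b)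
  have h2 := ep (-a) (b * (ell p N 2)⁻¹)
  have h3 : EP (fun t => Tinv p N (fun t => a + b * cos (2 * t)) t -
      (-a + b * (ell p N 2)⁻¹ * cos (2 * t))) :=
    ⟨⟨h1.cont.sub h2.cont, h1.per.sub h2.per⟩, fun t => by simp only [h1.even, h2.even]⟩
  refine sub_eq_zero.1 (uniq h3.toCP (fun m => ?_) (bs_even h3) t)
  rw [ac_sub h1.cont h2.cont, h.ac_T (ep a b), hac, hac]
  have hp := h.hp
  rcases m with _ | _ | _ | m
  · simp [wt]
  · simp
  · have : ¬ p ∣ 2 := fun h1 => by have := Nat.le_of_dvd two_pos h1; omega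
    simp [wt, this]; ring
  · simp

end Par

end Pool.Agent.H856Z.Cau
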